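import Mathlib

set_option autoImplicit false
open scoped CStarAlgebra

namespace Pool.Agent.NCL

variable {A : Type*} [CStarAlgebra A] [PartialOrder A] [StarOrderedRing A]

/-- `-t ≤ a ≤ t` implies `‖a‖ ≤ t`. -/
theorem norm_le_of_between {a : A} (ha : IsSelfAdjoint a) {t : ℝ} (ht : 0 ≤ t)
    (h1 : a ≤ algebraMap ℝ A t) (h2 : -(algebraMap ℝ A t) ≤ a) : ‖a‖ ≤ t := by
  rcases subsingleton_or_nontrivial A with h | h
  · rw [Subsingleton.elim a 0, norm_zero]; exact ht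
  · have h3 : ∀ x ∈ spectrum ℝ a, x ≤ t := (le_algebraMap_iff_spectrum_le (a := a)).mp h1
    have h4 : ∀ x ∈ spectrum ℝ a, -t ≤ x := by
      refine (algebraMap_le_iff_le_spectrum (a := a)).mp ?_
      rw [map_neg]; exact h2
    rcases CStarAlgebra.norm_or_neg_norm_mem_spectrum ha with h5 | h5
    · exact h3 _ h5
    · have := h4 _ h5; linarith

/-- Self-adjoint part of a C*-algebra, as a real vector space. -/
abbrev SA (A : Type*) [CStarAlgebra A] : Type _ := selfAdjoint A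

omit [PartialOrder A] [StarOrderedRing A] in
theorem algebraMap_eq_SA (t : ℝ) : algebraMap ℝ A t = ((t • (1 : SA A) : SA A) : A) := by
  rw [selfAdjoint.val_smul, selfAdjoint.val_one, Algebra.algebraMap_eq_smul_one]

/-- Jordan decomposition of a bounded functional on the self-adjoint part. -/
theorem jordan (ω : SA A →ₗ[ℝ] ℝ) (c : ℝ) (hc : 0 ≤ c) (hω : ∀ v, |ω v| ≤ c * ‖(v : A)‖) :
    ∃ p m : SA A →ₗ[ℝ] ℝ, (∀ v : SA A, 0 ≤ (v : A) → 0 ≤ p v) ∧
      (∀ v : SA A, 0 ≤ (v : A) → 0 ≤ m v) ∧ (∀ v, ω v = p v - m v) ∧ p 1 + m 1 ≤ c := by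
  rcases subsingleton_or_nontrivial A with hA | hA
  · refine ⟨0, 0, fun _ _ => le_rfl, fun _ _ => le_rfl, fun v => ?_, by simpa using hc⟩
    have h0 : v = 0 := Subtype.ext (Subsingleton.elim _ _)
    rw [h0]; simp
  -- the subspace
  let ψ : (SA A × ℝ) →ₗ[ℝ] (SA A × SA A) :=
    { toFun := fun x => (x.1 + x.2 • (1 : SA A), -x.1 + x.2 • (1 : SA A))
      map_add' := fun x y => by
        ext1
        · show x.1 + y.1 + (x.2 + y.2) • (1 : SA A) = (x.1 + x.2 • 1) + (y.1 + y.2 • 1)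
          module
        · show -(x.1 + y.1) + (x.2 + y.2) • (1 : SA A) = (-x.1 + x.2 • 1) + (-y.1 + y.2 • 1)
          module
      map_smul' := fun r x => by
        ext1
        · show r • x.1 + (r * x.2) • (1 : SA A) = r • (x.1 + x.2 • 1)
          module
        · show -(r • x.1) + (r * x.2) • (1 : SA A) = r • (-x.1 + x.2 • 1)
          module }
  have hψ1 : ∀ x, (ψ x).1 = x.1 + x.2 • (1 : SA A) := fun _ => rfl
  have hψ2 : ∀ x, (ψ x).2 = -x.1 + x.2 • (1 : SA A) := fun _ => rfl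
  have h10 : (1 : SA A) ≠ 0 := by
    intro h
    have : ((1 : SA A) : A) = ((0 : SA A) : A) := by rw [h]
    rw [selfAdjoint.val_one] at this
    exact one_ne_zero this
  have hinj : Function.Injective ψ := by
    rw [← LinearMap.ker_eq_bot, LinearMap.ker_eq_bot']
    intro x hx
    have e1 : x.1 + x.2 • (1 : SA A) = 0 := by rw [← hψ1, hx]; rfl
    have e2 : -x.1 + x.2 • (1 : SA A) = 0 := by rw [← hψ2, hx]; rfl
    have e3 : (2 * x.2) • (1 : SA A) = 0 := by
      calc (2 * x.2) • (1 : SA A) = (x.1 + x.2 • (1 : SA A)) + (-x.1 + x.2 • (1 : SA A)) := by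
            module
        _ = 0 := by rw [e1, e2, add_zero]
    have e4 : x.2 = 0 := by
      rcases smul_eq_zero.mp e3 with h | h
      · linarith
      · exact absurd h h10
    have e5 : x.1 = 0 := by rw [e4, zero_smul, add_zero] at e1; exact e1
    exact Prod.ext e5 e4
  let F0 : (SA A × ℝ) →ₗ[ℝ] ℝ := ω.comp (LinearMap.fst ℝ (SA A) ℝ) + c • LinearMap.snd ℝ (SA A) ℝ
  have hF0 : ∀ x, F0 x = ω x.1 + c * x.2 := fun _ => rfl
  let e := LinearEquiv.ofInjective ψ hinj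
  let F : (SA A × SA A) →ₗ.[ℝ] ℝ := ⟨LinearMap.range ψ, F0.comp e.symm.toLinearMap⟩
  have hF : ∀ x : SA A × ℝ, ∀ h : ψ x ∈ F.domain, F ⟨ψ x, h⟩ = ω x.1 + c * x.2 := by
    intro x h
    show F0 (e.symm ⟨ψ x, h⟩) = _
    have : e.symm ⟨ψ x, h⟩ = x := by
      rw [LinearEquiv.symm_apply_eq]
      exact Subtype.ext rfl
    rw [this, hF0]
  let s : PointedCone ℝ (SA A × SA A) :=
    { carrier := {w | 0 ≤ ((w.1 : SA A) : A) ∧ 0 ≤ ((w.2 : SA A) : A)}
      add_mem' := fun {a b} ha hb => by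
        refine ⟨?_, ?_⟩
        · show 0 ≤ (((a.1 + b.1 : SA A)) : A)
          rw [AddSubgroup.coe_add]; exact add_nonneg ha.1 hb.1
        · show 0 ≤ (((a.2 + b.2 : SA A)) : A)
          rw [AddSubgroup.coe_add]; exact add_nonneg ha.2 hb.2
      zero_mem' := ⟨le_rfl, le_rfl⟩
      smul_mem' := fun r a ha => by
        refine ⟨?_, ?_⟩
        · show 0 ≤ ((((r : ℝ) • a.1 : SA A)) : A)
          rw [selfAdjoint.val_smul]; exact smul_nonneg r.2 ha.1
        · show 0 ≤ ((((r : ℝ) • a.2 : SA A)) : A)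
          rw [selfAdjoint.val_smul]; exact smul_nonneg r.2 ha.2 }
  have hs : ∀ w, w ∈ s ↔ 0 ≤ ((w.1 : SA A) : A) ∧ 0 ≤ ((w.2 : SA A) : A) := fun _ => Iff.rfl
  obtain ⟨g, hg1, hg2⟩ := riesz_extension s F (by
    rintro ⟨_, ⟨x, rfl⟩⟩ hx
    refine le_of_le_of_eq ?_ (hF x ⟨x, rfl⟩).symm
    rw [hs] at hx
    obtain ⟨hx1, hx2⟩ := hx
    have hx1' : 0 ≤ ((x.1 + x.2 • (1 : SA A) : SA A) : A) := hx1
    have hx2' : 0 ≤ ((-x.1 + x.2 • (1 : SA A) : SA A) : A) := hx2
    rw [AddSubgroup.coe_add, ← algebraMap_eq_SA] at hx1' hx2'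
    rw [AddSubgroup.coe_neg] at hx2'
    have hx2nn : 0 ≤ x.2 := by
      by_contra hneg
      push Not at hneg
      have e1 : 0 ≤ algebraMap ℝ A x.2 + algebraMap ℝ A x.2 := by
        have := add_nonneg hx1' hx2'
        convert this using 1
        abel
      rw [← map_add] at e1
      have e2 : algebraMap ℝ A (x.2 + x.2) ≤ 0 := by
        rw [Algebra.algebraMap_eq_smul_one]
        have := smul_nonneg (neg_pos.mpr (by linarith : x.2 + x.2 < 0)).le (zero_le_one (α := A))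
        rw [neg_smul] at this
        exact neg_nonneg.mp this
      have e3 : algebraMap ℝ A (x.2 + x.2) = 0 := le_antisymm e2 e1
      rw [Algebra.algebraMap_eq_smul_one] at e3
      rcases smul_eq_zero.mp e3 with h | h
      · linarith
      · exact one_ne_zero h
    have e6 : ‖((x.1 : SA A) : A)‖ ≤ x.2 := by
      refine norm_le_of_between x.1.2 hx2nn ?_ ?_
      · rw [← sub_nonneg]; convert hx2' using 1; abel
      · rw [← sub_nonneg]; convert hx1' using 1; abel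
    have e7 := (abs_le.mp (hω x.1)).1
    have e8 : c * ‖((x.1 : SA A) : A)‖ ≤ c * x.2 := mul_le_mul_of_nonneg_left e6 hc
    linarith) (by
    intro y
    set t : ℝ := max ‖((y.1 : SA A) : A)‖ ‖((y.2 : SA A) : A)‖ with ht
    refine ⟨⟨ψ (0, t), ⟨(0, t), rfl⟩⟩, ?_⟩
    rw [hs]
    have hkey : ∀ z : SA A, ‖(z : A)‖ ≤ t → 0 ≤ algebraMap ℝ A t + (z : A) := by
      intro z hz
      have e1 : -(algebraMap ℝ A ‖(z : A)‖) ≤ (z : A) :=
        IsSelfAdjoint.neg_algebraMap_norm_le_self z.2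
      have e2 : algebraMap ℝ A ‖(z : A)‖ ≤ algebraMap ℝ A t := algebraMap_mono A hz
      have e3 : 0 ≤ algebraMap ℝ A ‖(z : A)‖ + (z : A) := by
        rw [← sub_nonneg] at e1
        convert e1 using 1; abel
      exact e3.trans (by gcongr)
    constructor
    · show 0 ≤ (((0 + t • (1 : SA A)) + y.1 : SA A) : A)
      rw [zero_add, AddSubgroup.coe_add, ← algebraMap_eq_SA]
      exact hkey _ (le_max_left _ _)
    · show 0 ≤ (((-0 + t • (1 : SA A)) + y.2 : SA A) : A)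
      rw [neg_zero, zero_add, AddSubgroup.coe_add, ← algebraMap_eq_SA]
      exact hkey _ (le_max_right _ _))
  refine ⟨g.comp (LinearMap.inl ℝ (SA A) (SA A)), g.comp (LinearMap.inr ℝ (SA A) (SA A)),
    fun v hv => hg2 _ ⟨hv, le_rfl⟩, fun v hv => hg2 _ ⟨le_rfl, hv⟩, fun v => ?_, ?_⟩
  · have e1 := (hg1 ⟨ψ (v, 0), ⟨(v, 0), rfl⟩⟩).trans (hF (v, 0) ⟨(v, 0), rfl⟩)
    have e2 : (ψ (v, 0)) = (v, 0) - (0, v) := by
      ext1
      · rw [hψ1]; simp
      · rw [hψ2]; simp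
    have e3 : g (ψ (v, 0)) = ω v + c * 0 := e1
    rw [e2, map_sub] at e3
    show ω v = g (v, 0) - g (0, v)
    linarith
  · have e1 := (hg1 ⟨ψ (0, 1), ⟨(0, 1), rfl⟩⟩).trans (hF (0, 1) ⟨(0, 1), rfl⟩)
    have e2 : (ψ (0, 1)) = ((1 : SA A), (0 : SA A)) + ((0 : SA A), (1 : SA A)) := by
      ext1
      · rw [hψ1]; simp
      · rw [hψ2]; simp
    have e3 : g (ψ (0, 1)) = ω 0 + c * 1 := e1
    rw [e2, map_add, map_zero] at e3
    show g (1, 0) + g (0, 1) ≤ c
    linarith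

end Pool.Agent.NCL
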