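import Mathlib
import Pool.Agent.NCL.CS1

set_option autoImplicit false
open scoped RealInnerProductSpace

namespace Pool.Agent.NCL

universe u

/-- A real vector space with a positive semidefinite symmetric bilinear form maps densely to a
Hilbert space. -/
theorem exists_hilbert_of_form {V : Type u} [AddCommGroup V] [Module ℝ V]
    (τ : V →ₗ[ℝ] V →ₗ[ℝ] ℝ) (hs : ∀ x y, τ x y = τ y x) (hp : ∀ x, 0 ≤ τ x x) :
    ∃ (K : Type u) (_ : NormedAddCommGroup K) (_ : InnerProductSpace ℝ K) (_ : CompleteSpace K)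
      (ι : V →ₗ[ℝ] K), DenseRange ι ∧ ∀ x y, ⟪ι x, ι y⟫ = τ x y := by
  let c : PreInnerProductSpace.Core ℝ V :=
    { inner := fun x y => τ x y
      conj_inner_symm := fun x y => hs y x
      re_inner_nonneg := fun x => hp x
      add_left := fun x y z => by rw [map_add]; rfl
      smul_left := fun x y r => by rw [map_smul]; rfl }
  let i1 : SeminormedAddCommGroup V := InnerProductSpace.Core.toSeminormedAddCommGroup (c := c)
  let i2 : InnerProductSpace ℝ V := InnerProductSpace.ofCore c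
  refine ⟨UniformSpace.Completion V, inferInstance, inferInstance, inferInstance,
    (UniformSpace.Completion.toComplL (𝕜 := ℝ) (E := V)).toLinearMap, ?_, ?_⟩
  · exact UniformSpace.Completion.denseRange_coe
  · intro x y
    exact UniformSpace.Completion.inner_coe x y

/-- Riesz representation on a dense subspace. -/
theorem exists_rep {V : Type u} [AddCommGroup V] [Module ℝ V] {K : Type u}
    [NormedAddCommGroup K] [InnerProductSpace ℝ K] [CompleteSpace K] (ι : V →ₗ[ℝ] K)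
    (hd : DenseRange ι) (f : V →ₗ[ℝ] ℝ) (C : ℝ) (hf : ∀ x, |f x| ≤ C * ‖ι x‖) :
    ∃ r : K, ∀ x, ⟪r, ι x⟫ = f x := by
  refine ⟨(InnerProductSpace.toDual ℝ K).symm (f.extendOfNorm ι), fun x => ?_⟩
  rw [InnerProductSpace.toDual_symm_apply]
  exact LinearMap.extendOfNorm_eq hd ⟨C, fun x => by rw [Real.norm_eq_abs]; exact hf x⟩ x

section

variable {A : Type u} [CStarAlgebra A]

/-- The Jordan product `(y z + z y)/2`. -/
noncomputable def jp (y z : SA A) : SA A := realPart ((y : A) * (z : A))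

theorem coe_jp (y z : SA A) : ((jp y z : SA A) : A) = (2⁻¹ : ℝ) • ((y : A) * z + z * y) := by
  unfold jp
  rw [realPart_apply_coe, star_mul, selfAdjoint.star_val_eq, selfAdjoint.star_val_eq]

theorem jp_comm (y z : SA A) : jp y z = jp z y := by
  apply Subtype.ext
  rw [coe_jp, coe_jp, add_comm]

theorem coe_jp_self (y : SA A) : ((jp y y : SA A) : A) = (y : A) * y := by
  rw [coe_jp, ← two_smul ℝ ((y : A) * y), smul_smul]
  norm_num

theorem jp_one_left (y : SA A) : jp 1 y = y := by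
  apply Subtype.ext
  rw [coe_jp, selfAdjoint.val_one, one_mul, mul_one, ← two_smul ℝ (y : A), smul_smul]
  norm_num

/-- The form `(y, z) ↦ Φ (y ∘ z)`. -/
noncomputable def tau (Φ : SA A →ₗ[ℝ] ℝ) : SA A →ₗ[ℝ] SA A →ₗ[ℝ] ℝ :=
  LinearMap.mk₂ ℝ (fun y z => Φ (jp y z))
    (by intro y y' z
        unfold jp
        rw [AddSubgroup.coe_add, add_mul, map_add, map_add])
    (by intro c y z
        unfold jp
        rw [selfAdjoint.val_smul, smul_mul_assoc, map_smul, map_smul])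
    (by intro y z z'
        unfold jp
        rw [AddSubgroup.coe_add, mul_add, map_add, map_add])
    (by intro c y z
        unfold jp
        rw [selfAdjoint.val_smul, mul_smul_comm, map_smul, map_smul])

theorem tau_apply (Φ : SA A →ₗ[ℝ] ℝ) (y z : SA A) : tau Φ y z = Φ (jp y z) := rfl

variable [PartialOrder A] [StarOrderedRing A]

theorem jp_self_nonneg (y : SA A) : 0 ≤ ((jp y y : SA A) : A) := by
  rw [coe_jp_self]
  have := star_mul_self_nonneg (y : A)
  rwa [selfAdjoint.star_val_eq] at this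

/-- Cauchy-Schwarz for positive functionals. -/
theorem sq_le_of_pos (ω : SA A →ₗ[ℝ] ℝ) (hω : ∀ v : SA A, 0 ≤ (v : A) → 0 ≤ ω v) (y : SA A) :
    (ω y) ^ 2 ≤ ω 1 * ω (jp y y) := by
  have h1 : ∀ t : ℝ, 0 ≤ ω 1 * (t * t) + (2 * ω y) * t + ω (jp y y) := by
    intro t
    have h2 := hω _ (jp_self_nonneg (y + t • (1 : SA A)))
    have h3 : jp (y + t • (1 : SA A)) (y + t • (1 : SA A)) =
        jp y y + (2 * t) • y + (t * t) • (1 : SA A) := by
      apply Subtype.ext
      rw [coe_jp_self]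
      simp only [AddSubgroup.coe_add, selfAdjoint.val_smul, selfAdjoint.val_one, coe_jp_self,
        add_mul, mul_add, smul_mul_assoc, mul_smul_comm, one_mul, mul_one]
      module
    rw [h3, map_add, map_add, map_smul, map_smul, smul_eq_mul, smul_eq_mul] at h2
    linarith
  have h4 := discrim_le_zero h1
  unfold discrim at h4
  nlinarith

theorem exists_gns {L : Type} [Fintype L] (ω : L → SA A →ₗ[ℝ] ℝ)
    (hω : ∀ l, ∀ v : SA A, 0 ≤ (v : A) → 0 ≤ ω l v) :
    ∃ (K : Type u) (_ : NormedAddCommGroup K) (_ : InnerProductSpace ℝ K) (_ : CompleteSpace K)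
      (ι : SA A →ₗ[ℝ] K) (r : L → K), DenseRange ι ∧ (∀ l x, ⟪r l, ι x⟫ = ω l x) ∧
      (∀ l l', 0 ≤ ⟪r l, r l'⟫) ∧ (∑ l, ∑ l', ⟪r l, r l'⟫ = ∑ l, ω l 1) ∧
      (∀ x : SA A, ‖ι x‖ ^ 2 ≤ (∑ l, ω l 1) * ‖(x : A)‖ ^ 2) := by
  classical
  set Φ : SA A →ₗ[ℝ] ℝ := ∑ l, ω l with hΦ
  have hΦa : ∀ y, Φ y = ∑ l, ω l y := fun y => by rw [hΦ, LinearMap.sum_apply]
  have hΦ0 : ∀ v : SA A, 0 ≤ (v : A) → 0 ≤ Φ v := fun v hv => by
    rw [hΦa]; exact Finset.sum_nonneg fun l _ => hω l v hv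
  obtain ⟨K, i1, i2, i3, ι, hd, hι⟩ := exists_hilbert_of_form (tau Φ)
    (fun x y => by rw [tau_apply, tau_apply, jp_comm])
    (fun x => by rw [tau_apply]; exact hΦ0 _ (jp_self_nonneg x))
  have hn : ∀ y, ‖ι y‖ ^ 2 = Φ (jp y y) := fun y => by
    rw [← real_inner_self_eq_norm_sq, hι, tau_apply]
  have hrep : ∀ l, ∃ r : K, ∀ x, ⟪r, ι x⟫ = ω l x := by
    intro l
    refine exists_rep ι hd (ω l) (Real.sqrt (ω l 1)) fun x => ?_
    have h1 : 0 ≤ ω l 1 := hω l 1 (by rw [selfAdjoint.val_one]; exact zero_le_one)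
    apply abs_le_of_sq_le_sq _ (by positivity)
    rw [mul_pow, Real.sq_sqrt h1, hn]
    refine (sq_le_of_pos (ω l) (hω l) x).trans (mul_le_mul_of_nonneg_left ?_ h1)
    rw [hΦa]
    exact Finset.single_le_sum (f := fun l => ω l (jp x x))
      (fun l _ => hω l _ (jp_self_nonneg x)) (Finset.mem_univ l)
  choose r hr using hrep
  refine ⟨K, i1, i2, i3, ι, r, hd, hr, ?_, ?_, ?_⟩
  · intro l l'
    have key : ∀ ε : ℝ, 0 < ε → -(2 * ‖r l‖) * ε ≤ ⟪r l, r l'⟫ := by
      intro ε hε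
      obtain ⟨y, hy⟩ := Metric.denseRange_iff.mp hd (r l') ε hε
      rw [dist_eq_norm] at hy
      have hsa1 : IsSelfAdjoint ((y : A)⁺) := (CFC.posPart_nonneg (y : A)).isSelfAdjoint
      have hsa2 : IsSelfAdjoint ((y : A)⁻) := (CFC.negPart_nonneg (y : A)).isSelfAdjoint
      let yp : SA A := ⟨(y : A)⁺, hsa1⟩
      let ym : SA A := ⟨(y : A)⁻, hsa2⟩
      have hyp : ((yp : SA A) : A) = (y : A)⁺ := rfl
      have hym : ((ym : SA A) : A) = (y : A)⁻ := rfl
      have hdec : y = yp - ym := by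
        apply Subtype.ext
        rw [AddSubgroup.coe_sub, hyp, hym, CFC.posPart_sub_negPart (y : A) y.2]
      have hjp : jp yp ym = 0 := by
        apply Subtype.ext
        rw [coe_jp, hyp, hym, CFC.posPart_mul_negPart, CFC.negPart_mul_posPart]
        simp
      have h1 : ⟪ι yp, ι ym⟫ = 0 := by rw [hι, tau_apply, hjp, map_zero]
      have h2 : 0 ≤ ⟪r l', ι ym⟫ := by rw [hr]; exact hω l' ym (CFC.negPart_nonneg (y : A))
      have h3 : ‖ι ym‖ ≤ ε := by
        have e1 : ‖ι ym‖ ^ 2 ≤ ‖r l' - ι y‖ * ‖ι ym‖ := by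
          have e2 : ⟪r l' - ι y, ι ym⟫ = ⟪r l', ι ym⟫ + ‖ι ym‖ ^ 2 := by
            rw [inner_sub_left, hdec, map_sub, inner_sub_left, h1, real_inner_self_eq_norm_sq]
            ring
          have e3 := real_inner_le_norm (r l' - ι y) (ι ym)
          linarith
        have e4 := norm_nonneg (ι ym)
        have e5 : ‖ι ym‖ ^ 2 ≤ ε * ‖ι ym‖ :=
          e1.trans (mul_le_mul_of_nonneg_right hy.le e4)
        nlinarith
      have h4 : -(‖r l‖ * ε) ≤ ⟪r l, ι y⟫ := by
        have e1 : ⟪r l, ι y⟫ = ⟪r l, ι yp⟫ - ⟪r l, ι ym⟫ := by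
          rw [← inner_sub_right, ← map_sub, ← hdec]
        have e2 : 0 ≤ ⟪r l, ι yp⟫ := by rw [hr]; exact hω l yp (CFC.posPart_nonneg (y : A))
        have e3 := real_inner_le_norm (r l) (ι ym)
        have e4 : ‖r l‖ * ‖ι ym‖ ≤ ‖r l‖ * ε := mul_le_mul_of_nonneg_left h3 (norm_nonneg _)
        linarith
      have h5 : -(‖r l‖ * ε) ≤ ⟪r l, r l' - ι y⟫ := by
        have e1 := abs_real_inner_le_norm (r l) (r l' - ι y)
        have e2 := (abs_le.mp e1).1
        have e4 : ‖r l‖ * ‖r l' - ι y‖ ≤ ‖r l‖ * ε :=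
          mul_le_mul_of_nonneg_left hy.le (norm_nonneg _)
        linarith
      rw [inner_sub_right] at h5
      linarith
    by_contra hneg
    push Not at hneg
    have hr0 := norm_nonneg (r l)
    have h6 := key (-⟪r l, r l'⟫ / (2 * ‖r l‖ + 1)) (div_pos (by linarith) (by linarith))
    have h7 : -(2 * ‖r l‖) * (-⟪r l, r l'⟫ / (2 * ‖r l‖ + 1)) =
        ⟪r l, r l'⟫ * ((2 * ‖r l‖) / (2 * ‖r l‖ + 1)) := by ring
    rw [h7] at h6
    have h8 : (2 * ‖r l‖) / (2 * ‖r l‖ + 1) < 1 := by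
      rw [div_lt_one (by linarith)]; linarith
    nlinarith
  · have h1 : ∑ l, r l = ι 1 := by
      refine hd.eq_of_inner_left ℝ fun x => ?_
      rw [sum_inner, hι, tau_apply, jp_one_left, hΦa]
      exact Finset.sum_congr rfl fun l _ => hr l x
    calc ∑ l, ∑ l', ⟪r l, r l'⟫ = ⟪∑ l, r l, ∑ l', r l'⟫ := by
          rw [sum_inner]
          exact Finset.sum_congr rfl fun l _ => by rw [inner_sum]
      _ = ∑ l, ω l 1 := by rw [h1, hι, tau_apply, jp_one_left, hΦa]
  · intro x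
    rw [hn, ← hΦa]
    have h1 : 0 ≤ (((‖(x : A)‖ ^ 2) • (1 : SA A) - jp x x : SA A) : A) := by
      rw [AddSubgroup.coe_sub, ← algebraMap_eq_SA, coe_jp_self, sub_nonneg]
      have := CStarAlgebra.star_mul_le_algebraMap_norm_sq (a := (x : A))
      rwa [selfAdjoint.star_val_eq] at this
    have h2 := hΦ0 _ h1
    rw [map_sub, map_smul, smul_eq_mul] at h2
    linarith

end

end Pool.Agent.NCL
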