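import Mathlib

set_option autoImplicit false
open scoped RealInnerProductSpace

namespace Pool.Agent.NCL

/-- Difference of `g` along the edge `(i,j)` of the grid: `b = false` is the first direction,
`b = true` the second. -/
def dd {V : Type*} [AddCommGroup V] (g : ℕ → ℕ → V) (b : Bool) (i j : ℕ) : V :=
  if b then g i (j + 1) - g i j else g (i + 1) j - g i j

/-- All linear functionals on the bounded operators of the real Hilbert space `H`. -/
abbrev Fnl (H : Type) [NormedAddCommGroup H] [InnerProductSpace ℝ H] : Type :=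
  (H →L[ℝ] H) →ₗ[ℝ] ℝ

section

variable {H : Type} [NormedAddCommGroup H] [InnerProductSpace ℝ H]

/-- The vector functional `x ↦ ⟪η, x ξ⟫`. -/
noncomputable def om (ξ η : H) : Fnl H where
  toFun x := ⟪η, x ξ⟫
  map_add' x y := by simp [inner_add_right]
  map_smul' c x := by simp [inner_smul_right]

@[simp] theorem om_apply (ξ η : H) (x : H →L[ℝ] H) : om ξ η x = ⟪η, x ξ⟫ := rfl

/-- The rank one operator `x ↦ ⟪u, x⟫ v`. -/
noncomputable def rk (u v : H) : H →L[ℝ] H := (innerSL ℝ u).smulRight v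

@[simp] theorem rk_apply (u v x : H) : rk u v x = ⟪u, x⟫ • v := rfl

/-- The edge `e` component of a formal combination `C` of triples (edge, `ξ`, `η`): the functional
`x ↦ ∑ C (e,ξ,η) ⟪η, x ξ⟫`. -/
noncomputable def nf {S : Type*} [DecidableEq S] (C : (S × H × H) →₀ ℝ) (e : S) : Fnl H :=
  C.sum fun l a => if l.1 = e then a • om l.2.1 l.2.2 else 0

/-- Size of a formal combination: `∑ |C (e,ξ,η)| (‖ξ‖² + ‖η‖²)/2`. -/
noncomputable def sz {S : Type*} (C : (S × H × H) →₀ ℝ) : ℝ :=
  C.sum fun l a => |a| * ((‖l.2.1‖ ^ 2 + ‖l.2.2‖ ^ 2) / 2)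

/-- The bilinear form `(a,b) ↦ ∑ a(E_ij) b(E_ij) / (w_i w'_j)` on functionals, where
`E_ij = rk (u i) (v j)`. -/
noncomputable def Bf {I J : Type*} [Fintype I] [Fintype J] (u : I → H) (v : J → H) (w : I → ℝ)
    (w' : J → ℝ) : Fnl H →ₗ[ℝ] Fnl H →ₗ[ℝ] ℝ :=
  LinearMap.mk₂ ℝ
    (fun a b => ∑ i, ∑ j, a (rk (u i) (v j)) * b (rk (u i) (v j)) / (w i * w' j))
    (by
      intro a a' b
      rw [← Finset.sum_add_distrib]
      refine Finset.sum_congr rfl fun i _ => ?_
      rw [← Finset.sum_add_distrib]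
      refine Finset.sum_congr rfl fun j _ => ?_
      rw [LinearMap.add_apply]; ring)
    (by
      intro c a b
      rw [smul_eq_mul, Finset.mul_sum]
      refine Finset.sum_congr rfl fun i _ => ?_
      rw [Finset.mul_sum]
      refine Finset.sum_congr rfl fun j _ => ?_
      rw [LinearMap.smul_apply, smul_eq_mul]; ring)
    (by
      intro a b b'
      rw [← Finset.sum_add_distrib]
      refine Finset.sum_congr rfl fun i _ => ?_
      rw [← Finset.sum_add_distrib]
      refine Finset.sum_congr rfl fun j _ => ?_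
      rw [LinearMap.add_apply]; ring)
    (by
      intro c a b
      rw [smul_eq_mul, Finset.mul_sum]
      refine Finset.sum_congr rfl fun i _ => ?_
      rw [Finset.mul_sum]
      refine Finset.sum_congr rfl fun j _ => ?_
      rw [LinearMap.smul_apply, smul_eq_mul]; ring)

theorem Bf_apply {I J : Type*} [Fintype I] [Fintype J] (u : I → H) (v : J → H) (w : I → ℝ)
    (w' : J → ℝ) (a b : Fnl H) : Bf u v w w' a b =
      ∑ i, ∑ j, a (rk (u i) (v j)) * b (rk (u i) (v j)) / (w i * w' j) := rfl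

end

/-- The trigonometric weights `cos (2π ((k₁+1) i + (k₂+1) j) / n)`. -/
noncomputable def ck (n : ℕ) (k : ℕ × ℕ) (i j : ℕ) : ℝ :=
  Real.cos (2 * Real.pi * ((k.1 + 1) * i + (k.2 + 1) * j) / n)

end Pool.Agent.NCL
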