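import Pool.Agent.NCL.Defs
import Pool.Agent.LipPlane.Basic

set_option autoImplicit false
open scoped NNReal
open Filter Topology

namespace Pool.Agent.NCL

open Pool.Agent.LipPlane

variable {E : Type} [NormedAddCommGroup E] [NormedSpace ℝ E] {T : E →ₗ[ℝ] (Plane → ℝ)}

theorem model_abs_le (hT : IsLipModel E T) (e : E) (x y : Plane) :
    |T e x - T e y| ≤ ‖e‖ * ‖x - y‖ := by
  have h := (hT.lip e).dist_le_mul x y
  rw [Real.dist_eq, dist_eq_norm] at h
  exact h

theorem model_norm_le (hT : IsLipModel E T) (e : E) (K : ℝ) (hK : 0 ≤ K)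
    (h : ∀ x y, |T e x - T e y| ≤ K * ‖x - y‖) : ‖e‖ ≤ K := by
  have h1 := hT.norm_le e ⟨K, hK⟩ (LipschitzWith.of_dist_le_mul fun x y => by
    rw [Real.dist_eq, dist_eq_norm]; exact h x y)
  exact h1

/-- Evaluation at a point. -/
noncomputable def ev (hT : IsLipModel E T) (x : Plane) : E →L[ℝ] ℝ :=
  LinearMap.mkContinuous
    { toFun := fun e => T e x
      map_add' := fun a b => by rw [map_add]; rfl
      map_smul' := fun r a => by rw [map_smul]; rfl } ‖x‖
    (fun e => by
      have h := model_abs_le hT e x 0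
      rw [hT.zero, sub_zero, sub_zero] at h
      rw [Real.norm_eq_abs, mul_comm]; exact h)

theorem ev_apply (hT : IsLipModel E T) (x : Plane) (e : E) : ev hT x e = T e x := rfl

theorem norm_ev_sub_le (hT : IsLipModel E T) (x y : Plane) : ‖ev hT x - ev hT y‖ ≤ ‖x - y‖ := by
  apply ContinuousLinearMap.opNorm_le_bound _ (norm_nonneg _)
  intro e
  rw [sub_apply, ev_apply, ev_apply, Real.norm_eq_abs, mul_comm]
  exact model_abs_le hT e x y

/-- `Lip_0(ℝ²)` is complete. -/
theorem model_complete (hT : IsLipModel E T) : CompleteSpace E := by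
  refine Metric.complete_of_cauchySeq_tendsto fun e he => ?_
  have hpt : ∀ x : Plane, ∃ l : ℝ, Tendsto (fun n => T (e n) x) atTop (𝓝 l) := by
    intro x
    have h1 : CauchySeq (fun n => ev hT x (e n)) :=
      he.map (ev hT x).uniformContinuous
    exact cauchySeq_tendsto_of_complete h1
  choose f hf using hpt
  have hlip : ∀ ε > 0, ∃ N, ∀ n ≥ N, ∀ x y, |(T (e n) x - f x) - (T (e n) y - f y)| ≤
      ε * ‖x - y‖ := by
    intro ε hε
    obtain ⟨N, hN⟩ := Metric.cauchySeq_iff.mp he ε hε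
    refine ⟨N, fun n hn x y => ?_⟩
    have h1 : Tendsto (fun k => |(T (e n) x - T (e k) x) - (T (e n) y - T (e k) y)|) atTop
        (𝓝 |(T (e n) x - f x) - (T (e n) y - f y)|) :=
      (((tendsto_const_nhds.sub (hf x)).sub (tendsto_const_nhds.sub (hf y)))).abs
    refine le_of_tendsto h1 ?_
    filter_upwards [eventually_ge_atTop N] with k hk
    have h2 := model_abs_le hT (e n - e k) x y
    rw [map_sub, Pi.sub_apply, Pi.sub_apply] at h2
    refine h2.trans ?_
    have h3 := (hN n hn k hk).le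
    rw [dist_eq_norm] at h3
    exact mul_le_mul_of_nonneg_right h3 (norm_nonneg _)
  obtain ⟨N1, hN1⟩ := hlip 1 one_pos
  have hf0 : f 0 = 0 := by
    refine tendsto_nhds_unique (hf 0) ?_
    simp only [hT.zero]
    exact tendsto_const_nhds
  obtain ⟨e', he'⟩ := hT.surj f hf0 ⟨‖e N1‖₊ + 1, LipschitzWith.of_dist_le_mul fun x y => by
    rw [Real.dist_eq, dist_eq_norm]
    have h1 := hN1 N1 le_rfl x y
    have h2 := model_abs_le hT (e N1) x y
    push_cast
    rw [add_mul]
    have h3 : |f x - f y| ≤ |T (e N1) x - T (e N1) y| +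
        |(T (e N1) x - f x) - (T (e N1) y - f y)| := by
      have : f x - f y = (T (e N1) x - T (e N1) y) -
        ((T (e N1) x - f x) - (T (e N1) y - f y)) := by ring
      rw [this]
      exact abs_sub _ _
    calc |f x - f y| ≤ _ := h3
      _ ≤ _ := add_le_add h2 h1⟩
  refine ⟨e', Metric.tendsto_atTop.mpr fun ε hε => ?_⟩
  obtain ⟨N, hN⟩ := hlip (ε / 2) (by positivity)
  refine ⟨N, fun n hn => ?_⟩
  rw [dist_eq_norm]
  have h1 : ‖e n - e'‖ ≤ ε / 2 := by
    refine model_norm_le hT _ _ (by positivity) fun x y => ?_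
    rw [map_sub, Pi.sub_apply, Pi.sub_apply, he']
    exact hN n hn x y
  linarith

/-- The divergent double sum. -/
theorem exists_large (R : ℝ) :
    ∃ m : ℕ, R < ∑ k : Fin m × Fin m, 1 / ((k.1 : ℝ) + k.2 + 2) ^ 2 := by
  have h1 := Real.tendsto_sum_range_one_div_nat_succ_atTop
  obtain ⟨m, hm⟩ := (h1.eventually_gt_atTop (4 * R)).exists
  refine ⟨m, ?_⟩
  have h2 : ∑ i ∈ Finset.range m, (1 : ℝ) / (i + 1) ≤
      4 * ∑ k : Fin m × Fin m, 1 / ((k.1 : ℝ) + k.2 + 2) ^ 2 := by
    rw [Fintype.sum_prod_type, Finset.sum_range, Finset.mul_sum]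
    refine Finset.sum_le_sum fun a _ => ?_
    have h3 : ∑ b : Fin m with b ≤ a, (1 : ℝ) / (2 * ((a : ℝ) + 1)) ^ 2 ≤
        ∑ b : Fin m, 1 / ((a : ℝ) + b + 2) ^ 2 := by
      calc ∑ b : Fin m with b ≤ a, (1 : ℝ) / (2 * ((a : ℝ) + 1)) ^ 2 ≤
          ∑ b : Fin m with b ≤ a, 1 / ((a : ℝ) + b + 2) ^ 2 := by
            refine Finset.sum_le_sum fun b hb => ?_
            rw [Finset.mem_filter] at hb
            have h4 : (b : ℝ) ≤ a := by exact_mod_cast hb.2
            have h5 : (0 : ℝ) ≤ (a : ℝ) := Nat.cast_nonneg _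
            have h6 : (0 : ℝ) ≤ (b : ℝ) := Nat.cast_nonneg _
            apply one_div_le_one_div_of_le (by positivity)
            apply pow_le_pow_left₀ (by positivity)
            linarith
        _ ≤ _ := by
            apply Finset.sum_le_sum_of_subset_of_nonneg (Finset.filter_subset _ _)
            intro b _ _
            positivity
    have h7 : ∑ b : Fin m with b ≤ a, (1 : ℝ) / (2 * ((a : ℝ) + 1)) ^ 2 =
        ((a : ℝ) + 1) * (1 / (2 * ((a : ℝ) + 1)) ^ 2) := by
      rw [Finset.sum_const, nsmul_eq_mul]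
      congr 1
      have h8 : (Finset.univ.filter fun b : Fin m => b ≤ a) = Finset.Iic a := by
        ext b; simp
      rw [h8, Fin.card_Iic]
      push_cast; ring
    rw [h7] at h3
    have h9 : (0 : ℝ) < (a : ℝ) + 1 := by positivity
    calc (1 : ℝ) / ((a : ℝ) + 1) = 4 * (((a : ℝ) + 1) * (1 / (2 * ((a : ℝ) + 1)) ^ 2)) := by
          field_simp; ring
      _ ≤ _ := mul_le_mul_of_nonneg_left h3 (by norm_num)
  linarith

end Pool.Agent.NCL
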