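import Pool.Agent.NCL.Defs
import Pool.Agent.NCL.P9

set_option autoImplicit false
open scoped NNReal
open Filter Topology

namespace Pool.Agent.NCL

open Pool.Agent.LipPlane

/-- The grid point `(i,j)`. -/
noncomputable def pt (i j : ℕ) : Plane := WithLp.toLp 2 ![(i : ℝ), (j : ℝ)]

theorem pt_zero (i j : ℕ) : pt i j 0 = i := rfl
theorem pt_one (i j : ℕ) : pt i j 1 = j := rfl

theorem abs_coord_le (x : Plane) (i : Fin 2) : |x i| ≤ ‖x‖ := by
  rw [← Real.norm_eq_abs]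
  exact PiLp.norm_apply_le x i

/-- Test functions. -/
noncomputable def tf (n a b : ℕ) (x : Plane) : ℝ :=
  Real.cos (2 * Real.pi * ((a + 1) * x 0 + (b + 1) * x 1) / n) - 1

theorem tf_lip (n a b : ℕ) (x y : Plane) :
    |tf n a b x - tf n a b y| ≤ (2 * Real.pi * ((a : ℝ) + b + 2) / n) * ‖x - y‖ := by
  unfold tf
  have h1 : ∀ s t : ℝ, |Real.cos s - Real.cos t| ≤ |s - t| := by
    intro s t
    have := Real.lipschitzWith_cos.dist_le_mul s t
    rw [Real.dist_eq, Real.dist_eq, NNReal.coe_one, one_mul] at this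
    exact this
  rw [sub_sub_sub_cancel_right]
  refine (h1 _ _).trans ?_
  have h2 : 2 * Real.pi * ((a + 1) * x 0 + (b + 1) * x 1) / n -
      2 * Real.pi * ((a + 1) * y 0 + (b + 1) * y 1) / n =
      (2 * Real.pi / n) * ((a + 1) * (x - y) 0 + (b + 1) * (x - y) 1) := by
    rw [PiLp.sub_apply, PiLp.sub_apply]; ring
  rw [h2, abs_mul]
  have h3 : |2 * Real.pi / n| = 2 * Real.pi / n := abs_of_nonneg (by positivity)
  rw [h3]
  have h4 : |(a + 1) * (x - y) 0 + (b + 1) * (x - y) 1| ≤ ((a : ℝ) + b + 2) * ‖x - y‖ := by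
    refine (abs_add_le _ _).trans ?_
    rw [abs_mul, abs_mul, abs_of_nonneg (by positivity : (0 : ℝ) ≤ (a : ℝ) + 1),
      abs_of_nonneg (by positivity : (0 : ℝ) ≤ (b : ℝ) + 1)]
    have e0 := abs_coord_le (x - y) 0
    have e1 := abs_coord_le (x - y) 1
    have f0 : ((a : ℝ) + 1) * |(x - y) 0| ≤ ((a : ℝ) + 1) * ‖x - y‖ :=
      mul_le_mul_of_nonneg_left e0 (by positivity)
    have f1 : ((b : ℝ) + 1) * |(x - y) 1| ≤ ((b : ℝ) + 1) * ‖x - y‖ :=
      mul_le_mul_of_nonneg_left e1 (by positivity)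
    nlinarith
  calc 2 * Real.pi / n * |(a + 1) * (x - y) 0 + (b + 1) * (x - y) 1| ≤
      2 * Real.pi / n * (((a : ℝ) + b + 2) * ‖x - y‖) :=
        mul_le_mul_of_nonneg_left h4 (by positivity)
    _ = _ := by ring

theorem tf_pt (n a b i j : ℕ) : tf n a b (pt i j) = ck n (a, b) i j - 1 := rfl

theorem norm_pt_sub_le (i j i' j' : ℕ) (h : |(i : ℝ) - i'| + |(j : ℝ) - j'| ≤ 1) :
    ‖pt i j - pt i' j'‖ ≤ 1 := by
  rw [EuclideanSpace.norm_eq, Fin.sum_univ_two]
  refine Real.sqrt_le_iff.mpr ⟨zero_le_one, ?_⟩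
  rw [PiLp.sub_apply, PiLp.sub_apply, pt_zero, pt_zero, pt_one, pt_one, Real.norm_eq_abs,
    Real.norm_eq_abs]
  have h1 := abs_nonneg ((i : ℝ) - i')
  have h2 := abs_nonneg ((j : ℝ) - j')
  nlinarith

/-- Clipping to the grid. -/
def clip (n : ℕ) (hn : 0 < n) (i : ℕ) : Fin n := ⟨min i (n - 1), by omega⟩

theorem clip_fin (n : ℕ) (hn : 0 < n) (i : Fin n) : clip n hn i = i := by
  apply Fin.ext
  show min (i : ℕ) (n - 1) = i
  have := i.2
  omega

theorem clip_clip_succ (n : ℕ) (hn : 0 < n) (i : ℕ) :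
    clip n hn (((clip n hn i : Fin n) : ℕ) + 1) = clip n hn (i + 1) := by
  apply Fin.ext
  show min (min i (n - 1) + 1) (n - 1) = min (i + 1) (n - 1)
  omega

end Pool.Agent.NCL
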