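import Pool.Agent.NCL.Defs

set_option autoImplicit false

namespace Pool.Agent.NCL

theorem tele_abs {V : Type*} [AddCommGroup V] [Module ℝ V] (f : V →ₗ[ℝ] ℝ) (h : ℕ → V) (n : ℕ) :
    ∀ a b : ℕ, a < n → b < n →
      |f (h a - h b)| ≤ ∑ s ∈ Finset.range n, |f (h (s + 1) - h s)| := by
  have key : ∀ a b : ℕ, b ≤ a → a < n →
      |f (h a - h b)| ≤ ∑ s ∈ Finset.range n, |f (h (s + 1) - h s)| := by
    intro a b hba ha
    have e : h a - h b = ∑ s ∈ Finset.Ico b a, (h (s + 1) - h s) :=
      (Finset.sum_Ico_sub h hba).symm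
    rw [e, map_sum]
    refine (Finset.abs_sum_le_sum_abs _ _).trans ?_
    refine Finset.sum_le_sum_of_subset_of_nonneg ?_ (fun _ _ _ => abs_nonneg _)
    intro s hs
    rw [Finset.mem_Ico] at hs
    rw [Finset.mem_range]
    omega
  intro a b ha hb
  rcases le_total b a with hba | hab
  · exact key a b hba ha
  · have h1 : f (h a - h b) = - f (h b - h a) := by
      rw [← map_neg, neg_sub]
    rw [h1, abs_neg]
    exact key b a hab hb

/-- two-step telescoping -/
theorem tele_two {V : Type*} [AddCommGroup V] [Module ℝ V] (B : V →ₗ[ℝ] V →ₗ[ℝ] ℝ)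
    (h k : ℕ → V) (n : ℕ) (a b c d : ℕ) (ha : a < n) (hb : b < n) (hc : c < n) (hd : d < n) :
    B (h a - h b) (k c - k d) ≤ ∑ s ∈ Finset.range n, ∑ t ∈ Finset.range n,
      |B (h (s + 1) - h s) (k (t + 1) - k t)| := by
  refine (le_abs_self _).trans ?_
  have h1 := tele_abs (B.flip (k c - k d)) h n a b ha hb
  simp only [LinearMap.flip_apply] at h1
  refine h1.trans ?_
  refine Finset.sum_le_sum fun s _ => ?_
  exact tele_abs (B (h (s + 1) - h s)) k n c d hc hd

theorem sum_const_four (n : ℕ) (A1 A2 A3 A4 : ℕ → ℕ → ℝ) :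
    ∑ i ∈ Finset.range n, ∑ j ∈ Finset.range n, ∑ i' ∈ Finset.range n, ∑ j' ∈ Finset.range n,
      (A1 j' i' + A2 j' j + A3 i i' + A4 i j) =
    (n : ℝ) ^ 2 * (∑ i ∈ Finset.range n, ∑ j ∈ Finset.range n, (A1 i j + A2 i j + A3 i j + A4 i j)) := by
  simp only [Finset.sum_add_distrib, Finset.sum_const, Finset.card_range, nsmul_eq_mul,
    ← Finset.mul_sum]
  have e : ∑ i ∈ Finset.range n, ∑ j ∈ Finset.range n, A1 j i =
      ∑ i ∈ Finset.range n, ∑ j ∈ Finset.range n, A1 i j := Finset.sum_comm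
  have e2 : ∑ i ∈ Finset.range n, ∑ j ∈ Finset.range n, A2 j i =
      ∑ i ∈ Finset.range n, ∑ j ∈ Finset.range n, A2 i j := Finset.sum_comm
  rw [e, e2]
  ring

/-- ROW P1 (path lemma).  `B` is any bilinear form on a real vector space, `g : ℕ → ℕ → V`.
Write `E b i j = dd g b i j`.  Claim: the sum over all pairs of points of the `n × n` grid of
`B (g p - g q) (g p - g q)` is at most `n²` times the sum over all pairs of edges of
`|B (E e) (E e')|`.

Proof.  For `i, i', j, j' < n` write, with `H1 = g i j' - g i' j'`, `V1 = g i j - g i j'`,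
`V2 = g i' j - g i' j'`, `H2 = g i j - g i' j`: `g i j - g i' j' = H1 + V1 = V2 + H2`.  Hence
`B (g i j - g i' j') (g i j - g i' j') = B H1 V2 + B H1 H2 + B V1 V2 + B V1 H2`.
For every linear form `f` (apply to `f = B · x` and `f = B x ·`) and `i, i' < n`:
`|f (g i j - g i' j)| ≤ ∑ s < n, |f (dd g false s j)|` (telescoping sum over the `s` between `i`
and `i'`: `Finset.sum_range_succ`-type telescoping `Finset.sum_range_sub`, or `Finset.sum_Ico`),
and the same in the second direction.  So
`B H1 V2 ≤ ∑ s, ∑ t, |B (dd g false s j') (dd g true i' t)|`,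
`B H1 H2 ≤ ∑ s, ∑ s', |B (dd g false s j') (dd g false s' j)|`,
`B V1 V2 ≤ ∑ t, ∑ t', |B (dd g true i t) (dd g true i' t')|`,
`B V1 H2 ≤ ∑ t, ∑ s, |B (dd g true i t) (dd g false s j)|`.
Each right side depends on two of the four indices `i, j, i', j'` only; summing over the four
indices gives `n²` times the sum over the corresponding pairs of edges. -/
theorem path_sum {V : Type*} [AddCommGroup V] [Module ℝ V] (B : V →ₗ[ℝ] V →ₗ[ℝ] ℝ)
    (g : ℕ → ℕ → V) (n : ℕ) :
    ∑ i ∈ Finset.range n, ∑ j ∈ Finset.range n, ∑ i' ∈ Finset.range n, ∑ j' ∈ Finset.range n,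
        B (g i j - g i' j') (g i j - g i' j') ≤
      (n : ℝ) ^ 2 * ∑ b : Bool, ∑ i ∈ Finset.range n, ∑ j ∈ Finset.range n,
        ∑ b' : Bool, ∑ i' ∈ Finset.range n, ∑ j' ∈ Finset.range n,
          |B (dd g b i j) (dd g b' i' j')| := by
  have hb : ∀ i ∈ Finset.range n, ∀ j ∈ Finset.range n, ∀ i' ∈ Finset.range n,
      ∀ j' ∈ Finset.range n, B (g i j - g i' j') (g i j - g i' j') ≤
      (∑ s ∈ Finset.range n, ∑ t ∈ Finset.range n, |B (dd g false s j') (dd g true i' t)|) +
      (∑ s ∈ Finset.range n, ∑ s' ∈ Finset.range n, |B (dd g false s j') (dd g false s' j)|) +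
      (∑ t ∈ Finset.range n, ∑ t' ∈ Finset.range n, |B (dd g true i t) (dd g true i' t')|) +
      (∑ t ∈ Finset.range n, ∑ s ∈ Finset.range n, |B (dd g true i t) (dd g false s j)|) := by
    intro i hi j hj i' hi' j' hj'
    rw [Finset.mem_range] at hi hj hi' hj'
    have e : B (g i j - g i' j') (g i j - g i' j') =
        B (g i j' - g i' j') (g i' j - g i' j') + B (g i j' - g i' j') (g i j - g i' j) +
        B (g i j - g i j') (g i' j - g i' j') + B (g i j - g i j') (g i j - g i' j) := by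
      simp only [map_sub, LinearMap.sub_apply]
      ring
    rw [e]
    have t1 := tele_two B (fun s => g s j') (fun t => g i' t) n i i' j j' hi hi' hj hj'
    have t2 := tele_two B (fun s => g s j') (fun s => g s j) n i i' i i' hi hi' hi hi'
    have t3 := tele_two B (fun t => g i t) (fun t => g i' t) n j j' j j' hj hj' hj hj'
    have t4 := tele_two B (fun t => g i t) (fun s => g s j) n j j' i i' hj hj' hi hi'
    exact add_le_add (add_le_add (add_le_add t1 t2) t3) t4
  refine (Finset.sum_le_sum fun i hi => Finset.sum_le_sum fun j hj => Finset.sum_le_sum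
    fun i' hi' => Finset.sum_le_sum fun j' hj' => hb i hi j hj i' hi' j' hj').trans ?_
  rw [sum_const_four n
    (fun j' i' => ∑ s ∈ Finset.range n, ∑ t ∈ Finset.range n,
      |B (dd g false s j') (dd g true i' t)|)
    (fun j' j => ∑ s ∈ Finset.range n, ∑ s' ∈ Finset.range n,
      |B (dd g false s j') (dd g false s' j)|)
    (fun i i' => ∑ t ∈ Finset.range n, ∑ t' ∈ Finset.range n,
      |B (dd g true i t) (dd g true i' t')|)
    (fun i j => ∑ t ∈ Finset.range n, ∑ s ∈ Finset.range n,
      |B (dd g true i t) (dd g false s j)|)]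
  refine le_of_eq ?_
  congr 1
  simp only [Fintype.sum_bool, Finset.sum_add_distrib]
  have r1 : (∑ x ∈ Finset.range n, ∑ y ∈ Finset.range n, ∑ s ∈ Finset.range n,
      ∑ t ∈ Finset.range n, |B (dd g false s x) (dd g true y t)|) =
      ∑ i ∈ Finset.range n, ∑ j ∈ Finset.range n, ∑ i' ∈ Finset.range n,
        ∑ j' ∈ Finset.range n, |B (dd g false i j) (dd g true i' j')| := by
    have : ∀ x ∈ Finset.range n, (∑ y ∈ Finset.range n, ∑ s ∈ Finset.range n,
      ∑ t ∈ Finset.range n, |B (dd g false s x) (dd g true y t)|) =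
      ∑ s ∈ Finset.range n, ∑ y ∈ Finset.range n,
      ∑ t ∈ Finset.range n, |B (dd g false s x) (dd g true y t)| := fun x _ => Finset.sum_comm
    rw [Finset.sum_congr rfl this, Finset.sum_comm]
  have r2 : (∑ x ∈ Finset.range n, ∑ y ∈ Finset.range n, ∑ s ∈ Finset.range n,
      ∑ t ∈ Finset.range n, |B (dd g false s x) (dd g false t y)|) =
      ∑ i ∈ Finset.range n, ∑ j ∈ Finset.range n, ∑ i' ∈ Finset.range n,
        ∑ j' ∈ Finset.range n, |B (dd g false i j) (dd g false i' j')| := by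
    have h1 : ∀ x ∈ Finset.range n, (∑ y ∈ Finset.range n, ∑ s ∈ Finset.range n,
      ∑ t ∈ Finset.range n, |B (dd g false s x) (dd g false t y)|) =
      ∑ s ∈ Finset.range n, ∑ t ∈ Finset.range n,
      ∑ y ∈ Finset.range n, |B (dd g false s x) (dd g false t y)| := by
      intro x _
      rw [Finset.sum_comm]
      exact Finset.sum_congr rfl fun s _ => Finset.sum_comm
    rw [Finset.sum_congr rfl h1, Finset.sum_comm]
  have r3 : (∑ x ∈ Finset.range n, ∑ y ∈ Finset.range n, ∑ s ∈ Finset.range n,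
      ∑ t ∈ Finset.range n, |B (dd g true x s) (dd g true y t)|) =
      ∑ i ∈ Finset.range n, ∑ j ∈ Finset.range n, ∑ i' ∈ Finset.range n,
        ∑ j' ∈ Finset.range n, |B (dd g true i j) (dd g true i' j')| :=
    Finset.sum_congr rfl fun x _ => Finset.sum_comm
  have r4 : (∑ x ∈ Finset.range n, ∑ y ∈ Finset.range n, ∑ s ∈ Finset.range n,
      ∑ t ∈ Finset.range n, |B (dd g true x s) (dd g false t y)|) =
      ∑ i ∈ Finset.range n, ∑ j ∈ Finset.range n, ∑ i' ∈ Finset.range n,
        ∑ j' ∈ Finset.range n, |B (dd g true i j) (dd g false i' j')| := by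
    refine Finset.sum_congr rfl fun x _ => ?_
    rw [Finset.sum_comm]
    exact Finset.sum_congr rfl fun s _ => Finset.sum_comm
  rw [r1, r2, r3, r4]
  ring

end Pool.Agent.NCL
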