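import Pool.Agent.NCL.Defs

set_option autoImplicit false

namespace Pool.Agent.NCL

/-- ROW P2 (Bessel).  `B` a positive semidefinite symmetric bilinear form, `g : P → V`, and
weights `c k : P → ℝ` with mean zero which are orthogonal with square sum `card P / 2`.

Proof.  Put `m = card P` (if `m = 0` everything is `0`), `C k = ∑ p, c k p • g p`,
`G = ∑ p, g p` and `h p = g p - (1/m) • G - ∑ k, ((2/m) * c k p) • C k`.  Then
`0 ≤ ∑ p, B (h p) (h p)`.  Expanding with `∑ p, c k p = 0` and the orthogonality: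
`∑ p, B (h p) (h p) = ∑ p, B (g p) (g p) - (1/m) * B G G - (2/m) * ∑ k, B (C k) (C k)`.
And `∑ p, ∑ p', B (g p - g p') (g p - g p') = 2 m ∑ p, B (g p) (g p) - 2 B G G`. -/
theorem bessel {V : Type*} [AddCommGroup V] [Module ℝ V] (B : V →ₗ[ℝ] V →ₗ[ℝ] ℝ)
    (hsymm : ∀ a b, B a b = B b a) (hpos : ∀ a, 0 ≤ B a a) {P K : Type*} [Fintype P]
    [Fintype K] [DecidableEq K] (g : P → V) (c : K → P → ℝ) (h0 : ∀ k, ∑ p, c k p = 0)
    (h1 : ∀ k l, ∑ p, c k p * c l p = if k = l then (Fintype.card P : ℝ) / 2 else 0) :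
    4 * ∑ k, B (∑ p, c k p • g p) (∑ p, c k p • g p) ≤
      ∑ p, ∑ p', B (g p - g p') (g p - g p') := by
  classical
  rcases isEmpty_or_nonempty P with hP | hP
  · simp
  set m : ℝ := (Fintype.card P : ℝ) with hm
  have hm0 : 0 < m := by rw [hm]; exact_mod_cast Fintype.card_pos
  have hm1 : m ≠ 0 := hm0.ne'
  set C : K → V := fun k => ∑ p, c k p • g p with hC
  set G : V := ∑ p, g p with hG
  set S : P → V := fun p => ∑ k, ((2 / m) * c k p) • C k with hS
  set Q : ℝ := ∑ k, B (C k) (C k) with hQ
  -- (i)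
  have e1 : ∑ p, B (g p) (S p) = (2 / m) * Q := by
    have : ∀ p, B (g p) (S p) = ∑ k, (2 / m) * (c k p * B (g p) (C k)) := by
      intro p
      rw [hS]
      simp only [map_sum, map_smul, smul_eq_mul]
      exact Finset.sum_congr rfl fun k _ => by ring
    rw [Finset.sum_congr rfl fun p _ => this p, Finset.sum_comm, hQ, Finset.mul_sum]
    refine Finset.sum_congr rfl fun k _ => ?_
    rw [← Finset.mul_sum]
    congr 1
    have : B (C k) (C k) = ∑ p, c k p * B (g p) (C k) := by
      have h : B (C k) = ∑ p, c k p • B (g p) := by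
        rw [hC]; simp only [map_sum, map_smul]
      rw [h]
      simp only [LinearMap.sum_apply, LinearMap.smul_apply, smul_eq_mul]
    rw [this]
  -- (ii)
  have e2 : ∑ p, S p = 0 := by
    rw [hS]
    rw [Finset.sum_comm]
    refine Finset.sum_eq_zero fun k _ => ?_
    rw [← Finset.sum_smul, ← Finset.mul_sum, h0 k, mul_zero, zero_smul]
  -- (iii)
  have e3 : ∑ p, B (S p) (S p) = (2 / m) * Q := by
    have : ∀ p, B (S p) (S p) = ∑ k, ∑ l, ((2 / m) ^ 2 * B (C k) (C l)) * (c k p * c l p) := by
      intro p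
      rw [hS]
      simp only [map_sum, map_smul, LinearMap.sum_apply, LinearMap.smul_apply, smul_eq_mul,
        Finset.mul_sum]
      rw [Finset.sum_comm]
      refine Finset.sum_congr rfl fun k _ => Finset.sum_congr rfl fun l _ => by ring
    rw [Finset.sum_congr rfl fun p _ => this p, Finset.sum_comm, hQ, Finset.mul_sum]
    refine Finset.sum_congr rfl fun k _ => ?_
    rw [Finset.sum_comm]
    have : ∀ l, ∑ p, ((2 / m) ^ 2 * B (C k) (C l)) * (c k p * c l p) =
        if k = l then (2 / m) * B (C k) (C l) else 0 := by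
      intro l
      rw [← Finset.mul_sum, h1 k l]
      split_ifs with h
      · field_simp
      · rw [mul_zero]
    rw [Finset.sum_congr rfl fun l _ => this l]
    simp
  have hnn : 0 ≤ ∑ p, B (g p - (1 / m) • G - S p) (g p - (1 / m) • G - S p) :=
    Finset.sum_nonneg fun p _ => hpos _
  have eG : ∑ p, B (g p) G = B G G := by
    have : B G = ∑ p, B (g p) := by rw [hG, map_sum]
    rw [this, LinearMap.sum_apply]
  have eS : ∑ p, B G (S p) = 0 := by
    rw [← map_sum, e2, map_zero]
  have key : ∑ p, B (g p - (1 / m) • G - S p) (g p - (1 / m) • G - S p) =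
      ∑ p, B (g p) (g p) - (1 / m) * B G G - (2 / m) * Q := by
    have : ∀ p, B (g p - (1 / m) • G - S p) (g p - (1 / m) • G - S p) =
        B (g p) (g p) - (2 / m) * B (g p) G + (1 / m) ^ 2 * B G G - 2 * B (g p) (S p)
          + (2 / m) * B G (S p) + B (S p) (S p) := by
      intro p
      simp only [map_sub, LinearMap.sub_apply, map_smul, LinearMap.smul_apply, smul_eq_mul]
      rw [hsymm G (g p), hsymm (S p) (g p), hsymm (S p) G]
      ring
    rw [Finset.sum_congr rfl fun p _ => this p]
    simp only [Finset.sum_add_distrib, Finset.sum_sub_distrib, ← Finset.mul_sum, eG, e1, eS, e3,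
      Finset.sum_const, Finset.card_univ, nsmul_eq_mul, ← hm]
    field_simp
    ring
  have dbl : ∑ p, ∑ p', B (g p - g p') (g p - g p') =
      2 * m * ∑ p, B (g p) (g p) - 2 * B G G := by
    have : ∀ p p', B (g p - g p') (g p - g p') =
        B (g p) (g p) + B (g p') (g p') - 2 * B (g p) (g p') := by
      intro p p'
      simp only [map_sub, LinearMap.sub_apply]
      rw [hsymm (g p') (g p)]
      ring
    simp only [this]
    simp only [Finset.sum_add_distrib, Finset.sum_sub_distrib, ← Finset.mul_sum, Finset.sum_const,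
      Finset.card_univ, nsmul_eq_mul, ← hm]
    have e : ∑ p, ∑ p', B (g p) (g p') = B G G := by
      rw [← eG]
      exact Finset.sum_congr rfl fun p _ => by rw [hG, map_sum]
    rw [e]
    ring
  rw [dbl]
  rw [key] at hnn
  have h2 := mul_nonneg (by positivity : (0 : ℝ) ≤ 2 * m) hnn
  have h3 : 2 * m * (∑ p, B (g p) (g p) - (1 / m) * B G G - (2 / m) * Q) =
      2 * m * ∑ p, B (g p) (g p) - 2 * B G G - 4 * Q := by
    field_simp
    ring
  rw [h3] at h2
  linarith

end Pool.Agent.NCL
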