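import Pool.Agent.NCL.Defs

set_option autoImplicit false

namespace Pool.Agent.NCL

theorem geom_zero (n : ℕ) (hn : 0 < n) (a : ℤ) (h : ¬ ((n : ℤ) ∣ a)) :
    ∑ i ∈ Finset.range n, Complex.exp (2 * Real.pi * a / n * Complex.I) ^ i = 0 := by
  set z : ℂ := Complex.exp (2 * Real.pi * a / n * Complex.I) with hz
  have hn0 : (n : ℂ) ≠ 0 := by exact_mod_cast hn.ne'
  have hz1 : z ^ n = 1 := by
    rw [hz, ← Complex.exp_nat_mul, Complex.exp_eq_one_iff]
    exact ⟨a, by field_simp⟩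
  have hz2 : z ≠ 1 := by
    intro h1
    rw [hz, Complex.exp_eq_one_iff] at h1
    obtain ⟨t, ht⟩ := h1
    apply h
    refine ⟨t, ?_⟩
    have hpi : (Real.pi : ℂ) ≠ 0 := by exact_mod_cast Real.pi_ne_zero
    have hI : Complex.I ≠ 0 := Complex.I_ne_zero
    have e : (a : ℂ) = n * t := by
      have h2 : (2 * Real.pi * Complex.I : ℂ) * (a / n) = (2 * Real.pi * Complex.I) * t := by
        rw [show (2 * Real.pi * Complex.I : ℂ) * (a / n) = 2 * Real.pi * a / n * Complex.I by ring,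
          ht]
        ring
      have h3 : (2 * Real.pi * Complex.I : ℂ) ≠ 0 := by
        simp [hpi, hI]
      have h4 := mul_left_cancel₀ h3 h2
      rw [div_eq_iff hn0] at h4
      rw [h4]; ring
    exact_mod_cast e
  have h5 := mul_geom_sum z n
  rw [hz1, sub_self] at h5
  rcases mul_eq_zero.mp h5 with h6 | h6
  · exact absurd (sub_eq_zero.mp h6) hz2
  · exact h6

theorem cos_sum (n : ℕ) (hn : 0 < n) (a b : ℤ) (h : ¬ ((n : ℤ) ∣ a ∧ (n : ℤ) ∣ b)) :
    ∑ i ∈ Finset.range n, ∑ j ∈ Finset.range n,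
      Real.cos (2 * Real.pi * (a * i + b * j) / n) = 0 := by
  have e : ∀ i j : ℕ, Real.cos (2 * Real.pi * (a * i + b * j) / n) =
      (Complex.exp (2 * Real.pi * a / n * Complex.I) ^ i *
        Complex.exp (2 * Real.pi * b / n * Complex.I) ^ j).re := by
    intro i j
    rw [← Complex.exp_nat_mul, ← Complex.exp_nat_mul, ← Complex.exp_add]
    rw [← Complex.exp_ofReal_mul_I_re (2 * Real.pi * (a * i + b * j) / n)]
    congr 2
    push_cast
    ring
  have e2 : ∑ i ∈ Finset.range n, ∑ j ∈ Finset.range n,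
      Real.cos (2 * Real.pi * (a * i + b * j) / n) =
      ((∑ i ∈ Finset.range n, Complex.exp (2 * Real.pi * a / n * Complex.I) ^ i) *
        (∑ j ∈ Finset.range n, Complex.exp (2 * Real.pi * b / n * Complex.I) ^ j)).re := by
    rw [Finset.sum_mul_sum, Complex.re_sum]
    refine Finset.sum_congr rfl fun i _ => ?_
    rw [Complex.re_sum]
    exact Finset.sum_congr rfl fun j _ => e i j
  rw [e2]
  by_cases ha : (n : ℤ) ∣ a
  · have hb : ¬ ((n : ℤ) ∣ b) := fun hb => h ⟨ha, hb⟩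
    rw [geom_zero n hn b hb]
    simp
  · rw [geom_zero n hn a ha]
    simp

/-- ROW P3 (orthogonality of cosines).  For `2 m < n`, `k₁, k₂, l₁, l₂ < m`.

Proof.  For integers `a, b`, not both divisible by `n`,
`∑ i < n, ∑ j < n, cos (2π (a i + b j)/n) = 0`: it is the real part of
`(∑ i < n, ζ ^ (a i)) (∑ j < n, ζ ^ (b j))` with `ζ = exp (2π i/n)`, and one of the two geometric
sums vanishes.  If both are divisible by `n` the sum is `n ^ 2`.  Use
`cos x cos y = (cos (x - y) + cos (x + y))/2`; for the sum of the two frequencies,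
`2 ≤ (k₁+1) + (l₁+1) ≤ 2 m < n`, for the difference `|k₁ - l₁| < n`, `|k₂ - l₂| < n`. -/
theorem ck_sum (n m : ℕ) (hm : 2 * m < n) (k : ℕ × ℕ) (hk1 : k.1 < m) (hk2 : k.2 < m) :
    ∑ i ∈ Finset.range n, ∑ j ∈ Finset.range n, ck n k i j = 0 := by
  have hn : 0 < n := by omega
  have h := cos_sum n hn ((k.1 : ℤ) + 1) ((k.2 : ℤ) + 1) (by
    rintro ⟨⟨t, ht⟩, -⟩
    have h1 : (0 : ℤ) < (n : ℤ) * t := by rw [← ht]; positivity
    have h2 : (n : ℤ) * t < n := by rw [← ht]; omega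
    have h3 : 0 < t := by
      by_contra h4
      push Not at h4
      have : (n : ℤ) * t ≤ 0 := mul_nonpos_of_nonneg_of_nonpos (by positivity) h4
      omega
    nlinarith)
  refine Eq.trans (Finset.sum_congr rfl fun i _ => Finset.sum_congr rfl fun j _ => ?_) h
  unfold ck
  push_cast
  rfl

theorem ck_orth (n m : ℕ) (hm : 2 * m < n) (k l : ℕ × ℕ) (hk1 : k.1 < m) (hk2 : k.2 < m)
    (hl1 : l.1 < m) (hl2 : l.2 < m) :
    ∑ i ∈ Finset.range n, ∑ j ∈ Finset.range n, ck n k i j * ck n l i j =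
      if k = l then (n : ℝ) ^ 2 / 2 else 0 := by
  have hn : 0 < n := by omega
  have hs := cos_sum n hn ((k.1 : ℤ) + 1 + (l.1 + 1)) ((k.2 : ℤ) + 1 + (l.2 + 1)) (by
    rintro ⟨⟨t, ht⟩, -⟩
    have h1 : (0 : ℤ) < (n : ℤ) * t := by rw [← ht]; positivity
    have h2 : (n : ℤ) * t < n := by rw [← ht]; omega
    have h3 : 0 < t := by
      by_contra h4
      push Not at h4
      have : (n : ℤ) * t ≤ 0 := mul_nonpos_of_nonneg_of_nonpos (by positivity) h4
      omega
    nlinarith)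
  have e : ∀ i j : ℕ, ck n k i j * ck n l i j =
      Real.cos (2 * Real.pi * ((((k.1 : ℤ) - l.1 : ℤ) : ℝ) * i + (((k.2 : ℤ) - l.2 : ℤ) : ℝ) * j)
        / n) / 2 +
      Real.cos (2 * Real.pi * ((((k.1 : ℤ) + 1 + (l.1 + 1) : ℤ) : ℝ) * i +
        (((k.2 : ℤ) + 1 + (l.2 + 1) : ℤ) : ℝ) * j) / n) / 2 := by
    intro i j
    have h1 := Real.cos_add (2 * Real.pi * ((k.1 + 1) * i + (k.2 + 1) * j) / n)
      (2 * Real.pi * ((l.1 + 1) * i + (l.2 + 1) * j) / n)
    have h2 := Real.cos_sub (2 * Real.pi * ((k.1 + 1) * i + (k.2 + 1) * j) / n)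
      (2 * Real.pi * ((l.1 + 1) * i + (l.2 + 1) * j) / n)
    have a1 : 2 * Real.pi * ((((k.1 : ℤ) - l.1 : ℤ) : ℝ) * i +
        (((k.2 : ℤ) - l.2 : ℤ) : ℝ) * j) / n =
        2 * Real.pi * ((k.1 + 1) * i + (k.2 + 1) * j) / n -
          2 * Real.pi * ((l.1 + 1) * i + (l.2 + 1) * j) / n := by
      push_cast
      ring
    have a2 : 2 * Real.pi * ((((k.1 : ℤ) + 1 + (l.1 + 1) : ℤ) : ℝ) * i +
        (((k.2 : ℤ) + 1 + (l.2 + 1) : ℤ) : ℝ) * j) / n =
        2 * Real.pi * ((k.1 + 1) * i + (k.2 + 1) * j) / n +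
          2 * Real.pi * ((l.1 + 1) * i + (l.2 + 1) * j) / n := by
      push_cast
      ring
    rw [a1, a2, h1, h2]
    unfold ck
    ring
  simp only [e, Finset.sum_add_distrib, ← Finset.sum_div]
  rw [hs]
  split_ifs with h
  · subst h
    simp
    ring
  · have hd := cos_sum n hn ((k.1 : ℤ) - l.1) ((k.2 : ℤ) - l.2) (by
      rintro ⟨h1, h2⟩
      apply h
      have d1 : (k.1 : ℤ) - l.1 = 0 := by
        apply Int.eq_zero_of_abs_lt_dvd h1
        rw [abs_lt]
        constructor <;> omega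
      have d2 : (k.2 : ℤ) - l.2 = 0 := by
        apply Int.eq_zero_of_abs_lt_dvd h2
        rw [abs_lt]
        constructor <;> omega
      ext
      · omega
      · omega)
    rw [hd]
    simp

end Pool.Agent.NCL
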