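import Mathlib
import Pool.Agent.NCL.Defs
import Pool.Agent.NCL.Grid
import Pool.Agent.NCL.P1
import Pool.Agent.NCL.P2
import Pool.Agent.NCL.P3
import Pool.Agent.NCL.CS1
import Pool.Agent.NCL.CS2

set_option autoImplicit false
open scoped RealInnerProductSpace

namespace Pool.Agent.NCL

universe u

/-- Main inequality for functionals on the self-adjoint part of a unital C*-algebra. -/
theorem sa_bound {A : Type u} [CStarAlgebra A] [PartialOrder A] [StarOrderedRing A]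
    (n m : ℕ) (hm : 2 * m < n) (hn : 0 < n) (ρ : Fin n × Fin n → (SA A →ₗ[ℝ] ℝ))
    (c : Bool × Fin n × Fin n → ℝ) (hc0 : ∀ e, 0 ≤ c e)
    (hc : ∀ e : Bool × Fin n × Fin n, ∀ v : SA A,
      |ρ (if e.1 then (e.2.1, clip n hn (e.2.2 + 1)) else (clip n hn (e.2.1 + 1), e.2.2)) v -
        ρ (e.2.1, e.2.2) v| ≤ c e * ‖(v : A)‖)
    (y : Fin m × Fin m → SA A) (hy : ∀ k, ‖(y k : A)‖ ≤ 1) :
    ∑ k : Fin m × Fin m, (∑ p : Fin n × Fin n, ck n (k.1, k.2) p.1 p.2 * ρ p (y k)) ^ 2 ≤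
      ((n : ℝ) / 2 * ∑ e : Bool × Fin n × Fin n, c e) ^ 2 := by
  classical
  choose P N hP hN hPN hle using fun e : Bool × Fin n × Fin n =>
    jordan (ρ (if e.1 then (e.2.1, clip n hn (e.2.2 + 1)) else (clip n hn (e.2.1 + 1), e.2.2)) -
      ρ (e.2.1, e.2.2)) (c e) (hc0 e) (fun v => by rw [LinearMap.sub_apply]; exact hc e v)
  set ω : (Bool × Fin n × Fin n) × Bool → SA A →ₗ[ℝ] ℝ :=
    fun l => if l.2 then P l.1 else N l.1 with hω
  have hω0 : ∀ l, ∀ v : SA A, 0 ≤ (v : A) → 0 ≤ ω l v := by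
    rintro ⟨e, b⟩ v hv
    cases b
    · exact hN e v hv
    · exact hP e v hv
  obtain ⟨K, i1, i2, i3, ι, r, hd, hr, hpos, hsum, hbd⟩ := exists_gns ω hω0
  set M : ℝ := ∑ e : Bool × Fin n × Fin n, c e with hM
  have hM0 : 0 ≤ M := Finset.sum_nonneg fun e _ => hc0 e
  have hΦM : ∑ l, ω l 1 ≤ M := by
    rw [Fintype.sum_prod_type]
    refine Finset.sum_le_sum fun e _ => ?_
    rw [Fintype.sum_bool]
    exact hle e
  set D : Bool × Fin n × Fin n → K := fun e => r (e, true) - r (e, false) with hD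
  have hDi : ∀ e : Bool × Fin n × Fin n, ∀ x, ⟪D e, ι x⟫ =
      ρ (if e.1 then (e.2.1, clip n hn (e.2.2 + 1)) else (clip n hn (e.2.1 + 1), e.2.2)) x -
        ρ (e.2.1, e.2.2) x := by
    intro e x
    rw [hD]
    show ⟪r (e, true) - r (e, false), ι x⟫ = _
    rw [inner_sub_left, hr, hr]
    exact (hPN e x).symm
  have hDD : ∑ e, ∑ e', |⟪D e, D e'⟫| ≤ M := by
    have h1 : ∀ e e', |⟪D e, D e'⟫| ≤ ∑ b, ∑ b', ⟪r (e, b), r (e', b')⟫ := by
      intro e e'
      rw [hD]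
      show |⟪r (e, true) - r (e, false), r (e', true) - r (e', false)⟫| ≤ _
      simp only [Fintype.sum_bool, inner_sub_left, inner_sub_right]
      have e1 := hpos (e, true) (e', true)
      have e2 := hpos (e, true) (e', false)
      have e3 := hpos (e, false) (e', true)
      have e4 := hpos (e, false) (e', false)
      rw [abs_le]
      constructor <;> linarith
    calc ∑ e, ∑ e', |⟪D e, D e'⟫| ≤ ∑ e, ∑ e', ∑ b, ∑ b', ⟪r (e, b), r (e', b')⟫ :=
          Finset.sum_le_sum fun e _ => Finset.sum_le_sum fun e' _ => h1 e e'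
      _ = ∑ l, ∑ l', ⟪r l, r l'⟫ := by
          simp only [Fintype.sum_prod_type (f := fun l => ∑ l', ⟪r l, r l'⟫)]
          refine Finset.sum_congr rfl fun e _ => ?_
          rw [Finset.sum_comm]
          refine Finset.sum_congr rfl fun b _ => ?_
          rw [Fintype.sum_prod_type (f := fun l' => ⟪r (e, b), r l'⟫)]
      _ ≤ M := by rw [hsum]; exact hΦM
  -- the potential
  set E : Bool → ℕ → ℕ → K := fun b i j => D (b, clip n hn i, clip n hn j) with hE
  have hEi : ∀ b i j x, ⟪E b i j, ι x⟫ =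
      dd (fun i j => ρ (clip n hn i, clip n hn j) x) b i j := by
    intro b i j x
    rw [hE]
    show ⟪D (b, clip n hn i, clip n hn j), ι x⟫ = _
    rw [hDi]
    cases b
    · simp [dd, clip_clip_succ]
    · simp [dd, clip_clip_succ]
  set g : ℕ → ℕ → K := fun i j =>
    ∑ s ∈ Finset.range i, E false s 0 + ∑ t ∈ Finset.range j, E true i t with hg
  have hgi : ∀ i j x, ⟪g i j, ι x⟫ =
      ρ (clip n hn i, clip n hn j) x - ρ (clip n hn 0, clip n hn 0) x := by
    intro i j x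
    rw [hg]
    show ⟪∑ s ∈ Finset.range i, E false s 0 + ∑ t ∈ Finset.range j, E true i t, ι x⟫ = _
    rw [inner_add_left, sum_inner, sum_inner]
    have e1 : ∑ s ∈ Finset.range i, ⟪E false s 0, ι x⟫ =
        ρ (clip n hn i, clip n hn 0) x - ρ (clip n hn 0, clip n hn 0) x := by
      rw [← Finset.sum_range_sub (fun s => ρ (clip n hn s, clip n hn 0) x)]
      exact Finset.sum_congr rfl fun s _ => by rw [hEi]; simp [dd]
    have e2 : ∑ t ∈ Finset.range j, ⟪E true i t, ι x⟫ =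
        ρ (clip n hn i, clip n hn j) x - ρ (clip n hn i, clip n hn 0) x := by
      rw [← Finset.sum_range_sub (fun t => ρ (clip n hn i, clip n hn t) x)]
      exact Finset.sum_congr rfl fun s _ => by rw [hEi]; simp [dd]
    rw [e1, e2]; ring
  have hdd : ∀ b i j, dd g b i j = E b i j := by
    intro b i j
    refine hd.eq_of_inner_left ℝ fun x => ?_
    rw [hEi]
    cases b
    · simp only [dd, Bool.false_eq_true, if_false, inner_sub_left, hgi]; ring
    · simp only [dd, if_true, inner_sub_left, hgi]; ring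
  have hconvR : ∀ (f : ℕ → ℕ → ℝ),
      ∑ p : Fin n × Fin n, f p.1 p.2 = ∑ i ∈ Finset.range n, ∑ j ∈ Finset.range n, f i j := by
    intro f
    rw [Fintype.sum_prod_type, Finset.sum_range]
    refine Finset.sum_congr rfl fun i _ => ?_
    rw [Finset.sum_range]
  have hck0 : ∀ k : Fin m × Fin m, ∑ p : Fin n × Fin n, ck n (k.1, k.2) p.1 p.2 = 0 := by
    intro k
    rw [hconvR (fun i j => ck n (k.1, k.2) i j)]
    exact ck_sum n m hm (k.1, k.2) k.1.2 k.2.2
  have hck1 : ∀ k l : Fin m × Fin m, ∑ p : Fin n × Fin n,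
      ck n (k.1, k.2) p.1 p.2 * ck n (l.1, l.2) p.1 p.2 =
        if k = l then (Fintype.card (Fin n × Fin n) : ℝ) / 2 else 0 := by
    intro k l
    rw [hconvR (fun i j => ck n (k.1, k.2) i j * ck n (l.1, l.2) i j),
      ck_orth n m hm (k.1, k.2) (l.1, l.2) k.1.2 k.2.2 l.1.2 l.2.2]
    have h1 : (((k.1 : ℕ), (k.2 : ℕ)) = ((l.1 : ℕ), (l.2 : ℕ))) ↔ k = l := by
      rw [Prod.mk.injEq, Prod.ext_iff, Fin.ext_iff, Fin.ext_iff]
    simp only [h1, Fintype.card_prod, Fintype.card_fin]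
    push_cast
    rw [pow_two]
  have h2 := path_sum (innerₗ K) g n
  have h3 : ∑ b : Bool, ∑ i ∈ Finset.range n, ∑ j ∈ Finset.range n,
      ∑ b' : Bool, ∑ i' ∈ Finset.range n, ∑ j' ∈ Finset.range n,
        |innerₗ K (dd g b i j) (dd g b' i' j')| ≤ M := by
    refine le_trans (le_of_eq ?_) hDD
    simp only [Finset.sum_range, Fintype.sum_prod_type, hdd, innerₗ_apply_apply]
    simp only [hE, clip_fin]
  have h4 := bessel (innerₗ K) (fun a b => by
      rw [innerₗ_apply_apply, innerₗ_apply_apply]; exact real_inner_comm _ _)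
    (fun a => by rw [innerₗ_apply_apply]; exact real_inner_self_nonneg)
    (fun p : Fin n × Fin n => g p.1 p.2)
    (fun (k : Fin m × Fin m) (p : Fin n × Fin n) => ck n (k.1, k.2) p.1 p.2) hck0 hck1
  have h5 : ∑ p : Fin n × Fin n, ∑ p' : Fin n × Fin n,
      innerₗ K (g p.1 p.2 - g p'.1 p'.2) (g p.1 p.2 - g p'.1 p'.2) =
      ∑ i ∈ Finset.range n, ∑ j ∈ Finset.range n, ∑ i' ∈ Finset.range n,
        ∑ j' ∈ Finset.range n, innerₗ K (g i j - g i' j') (g i j - g i' j') := by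
    rw [← hconvR (fun i j => ∑ i' ∈ Finset.range n,
        ∑ j' ∈ Finset.range n, innerₗ K (g i j - g i' j') (g i j - g i' j'))]
    refine Finset.sum_congr rfl fun p _ => ?_
    rw [← hconvR (fun i' j' => innerₗ K (g p.1 p.2 - g i' j') (g p.1 p.2 - g i' j'))]
  set C : Fin m × Fin m → K := fun k =>
    ∑ p : Fin n × Fin n, ck n (k.1, k.2) p.1 p.2 • g p.1 p.2 with hC
  have h6 : ∑ k, ‖C k‖ ^ 2 ≤ (n : ℝ) ^ 2 * M / 4 := by
    have h7 : 4 * ∑ k, ‖C k‖ ^ 2 ≤ (n : ℝ) ^ 2 * M := by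
      have e1 : ∀ k, ‖C k‖ ^ 2 = innerₗ K (∑ p : Fin n × Fin n, ck n (k.1, k.2) p.1 p.2 • g p.1 p.2)
          (∑ p : Fin n × Fin n, ck n (k.1, k.2) p.1 p.2 • g p.1 p.2) := by
        intro k
        rw [innerₗ_apply_apply, real_inner_self_eq_norm_sq]
      simp only [e1]
      refine h4.trans ?_
      rw [h5]
      refine h2.trans ?_
      exact mul_le_mul_of_nonneg_left h3 (by positivity)
    linarith
  have hval : ∀ k, ∑ p : Fin n × Fin n, ck n (k.1, k.2) p.1 p.2 * ρ p (y k) =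
      ⟪C k, ι (y k)⟫ := by
    intro k
    rw [hC]
    show _ = ⟪∑ p : Fin n × Fin n, ck n (k.1, k.2) p.1 p.2 • g p.1 p.2, ι (y k)⟫
    rw [sum_inner]
    have e1 : ∀ p : Fin n × Fin n, ⟪ck n (k.1, k.2) p.1 p.2 • g p.1 p.2, ι (y k)⟫ =
        ck n (k.1, k.2) p.1 p.2 * ρ p (y k) -
          ck n (k.1, k.2) p.1 p.2 * ρ (clip n hn 0, clip n hn 0) (y k) := by
      intro p
      rw [real_inner_smul_left, hgi, clip_fin, clip_fin]
      ring
    simp only [e1]
    rw [Finset.sum_sub_distrib, ← Finset.sum_mul, hck0 k, zero_mul, sub_zero]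
  have h8 : ∀ k, (∑ p : Fin n × Fin n, ck n (k.1, k.2) p.1 p.2 * ρ p (y k)) ^ 2 ≤
      ‖C k‖ ^ 2 * M := by
    intro k
    rw [hval]
    have e1 := abs_real_inner_le_norm (C k) (ι (y k))
    have e2 : ‖ι (y k)‖ ^ 2 ≤ M := by
      have e3 : ‖((y k : SA A) : A)‖ ^ 2 ≤ 1 := by
        have := hy k
        have h0 := norm_nonneg ((y k : SA A) : A)
        nlinarith
      have e4 : 0 ≤ ∑ l, ω l 1 := Finset.sum_nonneg fun l _ => hω0 l 1 (by
        rw [selfAdjoint.val_one]; exact zero_le_one)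
      calc ‖ι (y k)‖ ^ 2 ≤ (∑ l, ω l 1) * ‖((y k : SA A) : A)‖ ^ 2 := hbd _
        _ ≤ (∑ l, ω l 1) * 1 := mul_le_mul_of_nonneg_left e3 e4
        _ ≤ M := by rw [mul_one]; exact hΦM
    calc ⟪C k, ι (y k)⟫ ^ 2 ≤ (‖C k‖ * ‖ι (y k)‖) ^ 2 := by
          rw [← sq_abs]
          exact pow_le_pow_left₀ (abs_nonneg _) e1 2
      _ = ‖C k‖ ^ 2 * ‖ι (y k)‖ ^ 2 := by ring
      _ ≤ ‖C k‖ ^ 2 * M := mul_le_mul_of_nonneg_left e2 (by positivity)
  calc _ ≤ ∑ k : Fin m × Fin m, ‖C k‖ ^ 2 * M := Finset.sum_le_sum fun k _ => h8 k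
    _ = (∑ k : Fin m × Fin m, ‖C k‖ ^ 2) * M := by rw [Finset.sum_mul]
    _ ≤ ((n : ℝ) ^ 2 * M / 4) * M := mul_le_mul_of_nonneg_right h6 hM0
    _ = _ := by ring

end Pool.Agent.NCL
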