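import Mathlib
import Pool.Agent.NCL.Defs
import Pool.Agent.NCL.Grid
import Pool.Agent.NCL.CS3

set_option autoImplicit false
open scoped NNReal RealInnerProductSpace ComplexStarModule
open Filter Topology

namespace Pool.Agent.NCL

open Pool.Agent.LipPlane

universe u

/-- The map `(a, b) ↦ a + i b` from the self-adjoint part of `A × A` to `A`. -/
noncomputable def cplx (A : Type u) [CStarAlgebra A] : SA (A × A) →ₗ[ℝ] A where
  toFun v := (v : A × A).1 + Complex.I • (v : A × A).2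
  map_add' v w := by
    rw [AddSubgroup.coe_add, Prod.fst_add, Prod.snd_add, smul_add]; abel
  map_smul' r v := by
    rw [selfAdjoint.val_smul, Prod.smul_fst, Prod.smul_snd, RingHom.id_apply, smul_add,
      smul_comm Complex.I r]

theorem cplx_norm_le {A : Type u} [CStarAlgebra A] (v : SA (A × A)) :
    ‖cplx A v‖ ≤ 2 * ‖(v : A × A)‖ := by
  have h1 : ‖(v : A × A).1‖ ≤ ‖(v : A × A)‖ := norm_fst_le _
  have h2 : ‖(v : A × A).2‖ ≤ ‖(v : A × A)‖ := norm_snd_le _
  have h3 : ‖Complex.I • (v : A × A).2‖ = ‖(v : A × A).2‖ := by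
    rw [norm_smul, Complex.norm_I, one_mul]
  calc ‖(v : A × A).1 + Complex.I • (v : A × A).2‖ ≤
      ‖(v : A × A).1‖ + ‖Complex.I • (v : A × A).2‖ := norm_add_le _ _
    _ ≤ _ := by rw [h3]; linarith

theorem cplx_lift {A : Type u} [CStarAlgebra A] (a : A) :
    ∃ v : SA (A × A), cplx A v = a ∧ ‖(v : A × A)‖ ≤ ‖a‖ := by
  refine ⟨⟨((ℜ a : A), (ℑ a : A)), ?_⟩, ?_, ?_⟩
  · show star ((ℜ a : A), (ℑ a : A)) = ((ℜ a : A), (ℑ a : A))
    rw [Prod.star_def]
    simp
  · show (ℜ a : A) + Complex.I • (ℑ a : A) = a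
    exact realPart_add_I_smul_imaginaryPart a
  · show ‖((ℜ a : A), (ℑ a : A))‖ ≤ ‖a‖
    rw [Prod.norm_def]
    exact max_le (realPart.norm_le a) (imaginaryPart.norm_le a)

/-- The main inequality for real linear functionals on a unital C*-algebra. -/
theorem cstar_bound {A : Type u} [CStarAlgebra A] (n m : ℕ) (hm : 2 * m < n) (hn : 0 < n)
    (y : Fin m × Fin m → A) (hy : ∀ k, ‖y k‖ ≤ 1) (ρ : Fin n × Fin n → (A →L[ℝ] ℝ)) :
    ∑ k : Fin m × Fin m, (∑ p : Fin n × Fin n, ck n (k.1, k.2) p.1 p.2 * ρ p (y k)) ^ 2 ≤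
      ((n : ℝ) / 2 * ∑ e : Bool × Fin n × Fin n,
        2 * ‖ρ (if e.1 then (e.2.1, clip n hn (e.2.2 + 1)) else
          (clip n hn (e.2.1 + 1), e.2.2)) - ρ (e.2.1, e.2.2)‖) ^ 2 := by
  let i1 : PartialOrder (A × A) := CStarAlgebra.spectralOrder (A × A)
  have i2 : StarOrderedRing (A × A) := CStarAlgebra.spectralOrderedRing (A × A)
  choose v hv1 hv2 using fun k => cplx_lift (y k)
  have h := sa_bound (A := A × A) n m hm hn
    (fun p => (ρ p).toLinearMap.comp (cplx A))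
    (fun e => 2 * ‖ρ (if e.1 then (e.2.1, clip n hn (e.2.2 + 1)) else
          (clip n hn (e.2.1 + 1), e.2.2)) - ρ (e.2.1, e.2.2)‖)
    (fun e => by positivity)
    (fun e w => by
      have h1 := (ρ (if e.1 then (e.2.1, clip n hn (e.2.2 + 1)) else
          (clip n hn (e.2.1 + 1), e.2.2)) - ρ (e.2.1, e.2.2)).le_opNorm (cplx A w)
      rw [Real.norm_eq_abs] at h1
      refine le_trans h1 ?_
      have h2 := mul_le_mul_of_nonneg_left (cplx_norm_le w)
        (norm_nonneg (ρ (if e.1 then (e.2.1, clip n hn (e.2.2 + 1)) else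
          (clip n hn (e.2.1 + 1), e.2.2)) - ρ (e.2.1, e.2.2)))
      refine h2.trans (le_of_eq ?_)
      ring)
    v (fun k => (hv2 k).trans (hy k))
  refine le_trans (le_of_eq ?_) h
  refine Finset.sum_congr rfl fun k _ => ?_
  congr 1
  refine Finset.sum_congr rfl fun p _ => ?_
  show _ = ck n (k.1, k.2) p.1 p.2 * ρ p (cplx A (v k))
  rw [hv1]

end Pool.Agent.NCL
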