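import Mathlib
import Pool.Agent.NCL.Defs
import Pool.Agent.NCL.Grid
import Pool.Agent.NCL.CS4

set_option autoImplicit false
open scoped NNReal RealInnerProductSpace
open Filter Topology

namespace Pool.Agent.NCL

open Pool.Agent.LipPlane

universe u

/-- The theorem for unital C*-algebras. -/
theorem not_surjective_unital {A : Type u} [CStarAlgebra A] {E : Type} [NormedAddCommGroup E]
    [NormedSpace ℝ E] {T : E →ₗ[ℝ] (Plane → ℝ)} (hT : IsLipModel E T) (q : A →L[ℝ] E) :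
    ¬ Function.Surjective q := by
  intro hq
  have := model_complete hT
  obtain ⟨D, hD, hpre⟩ := q.exists_preimage_norm_le hq
  obtain ⟨m, hm⟩ := exists_large (64 * Real.pi ^ 2 * D ^ 2 * ‖q‖ ^ 2)
  set n : ℕ := 2 * m + 1 with hn
  have hn0 : 0 < n := by omega
  have hnR : (0 : ℝ) < n := by exact_mod_cast hn0
  have hex : ∀ k : Fin m × Fin m, ∃ e : E, T e = tf n k.1 k.2 := by
    intro k
    refine hT.surj _ ?_ ⟨⟨2 * Real.pi * ((k.1 : ℝ) + k.2 + 2) / n, by positivity⟩,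
      LipschitzWith.of_dist_le_mul fun x y => ?_⟩
    · simp [tf]
    · rw [Real.dist_eq, dist_eq_norm]
      exact tf_lip n k.1 k.2 x y
  choose e he using hex
  set L : Fin m × Fin m → ℝ := fun k => 2 * Real.pi * ((k.1 : ℝ) + k.2 + 2) / n with hL
  have hL0 : ∀ k, 0 < L k := fun k => by
    rw [hL]
    have := Real.pi_pos
    positivity
  have heL : ∀ k, ‖e k‖ ≤ L k := by
    intro k
    refine model_norm_le hT _ _ (hL0 k).le fun x y => ?_
    rw [he]
    exact tf_lip n k.1 k.2 x y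
  choose x hx1 hx2 using fun k => hpre (e k)
  set y : Fin m × Fin m → A := fun k => (D * L k)⁻¹ • x k with hy
  have hyn : ∀ k, ‖y k‖ ≤ 1 := by
    intro k
    have h0 : 0 < D * L k := mul_pos hD (hL0 k)
    rw [hy]
    show ‖(D * L k)⁻¹ • x k‖ ≤ 1
    rw [norm_smul, norm_inv, Real.norm_eq_abs, abs_of_pos h0, inv_mul_le_iff₀ h0, mul_one]
    exact (hx2 k).trans (mul_le_mul_of_nonneg_left (heL k) hD.le)
  have h1 := cstar_bound n m (by omega) hn0 y hyn
    (fun p => (ev hT (pt p.1 p.2)).comp q)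
  -- right side
  have h2 : ∑ s : Bool × Fin n × Fin n,
        2 * ‖(ev hT (pt ((if s.1 then (s.2.1, clip n hn0 (s.2.2 + 1)) else
            (clip n hn0 (s.2.1 + 1), s.2.2)) : Fin n × Fin n).1
            ((if s.1 then (s.2.1, clip n hn0 (s.2.2 + 1)) else
            (clip n hn0 (s.2.1 + 1), s.2.2)) : Fin n × Fin n).2)).comp q -
          (ev hT (pt s.2.1 s.2.2)).comp q‖ ≤ 4 * (n : ℝ) ^ 2 * ‖q‖ := by
    have h3 : ∀ s : Bool × Fin n × Fin n,
        ‖(ev hT (pt ((if s.1 then (s.2.1, clip n hn0 (s.2.2 + 1)) else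
            (clip n hn0 (s.2.1 + 1), s.2.2)) : Fin n × Fin n).1
            ((if s.1 then (s.2.1, clip n hn0 (s.2.2 + 1)) else
            (clip n hn0 (s.2.1 + 1), s.2.2)) : Fin n × Fin n).2)).comp q -
          (ev hT (pt s.2.1 s.2.2)).comp q‖ ≤ ‖q‖ := by
      intro s
      rw [← ContinuousLinearMap.sub_comp]
      refine (ContinuousLinearMap.opNorm_comp_le _ _).trans ?_
      have h4 : ∀ i j i' j' : ℕ, |(i : ℝ) - i'| + |(j : ℝ) - j'| ≤ 1 →
          ‖ev hT (pt i j) - ev hT (pt i' j')‖ * ‖q‖ ≤ ‖q‖ := by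
        intro i j i' j' h
        have h5 := (norm_ev_sub_le hT (pt i j) (pt i' j')).trans (norm_pt_sub_le i j i' j' h)
        calc _ ≤ 1 * ‖q‖ := mul_le_mul_of_nonneg_right h5 q.opNorm_nonneg
          _ = ‖q‖ := one_mul _
      have hclip : ∀ i : Fin n, |(((clip n hn0 (i + 1) : Fin n) : ℕ) : ℝ) - (i : ℕ)| ≤ 1 := by
        intro i
        have h6 : ((clip n hn0 (i + 1) : Fin n) : ℕ) = min ((i : ℕ) + 1) (n - 1) := rfl
        rw [h6]
        have hi2 : (i : ℕ) < n := i.2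
        rcases le_or_gt ((i : ℕ) + 1) (n - 1) with h | h
        · rw [min_eq_left h]; push_cast; simp
        · rw [min_eq_right h.le]
          have h7 : n - 1 = (i : ℕ) := by omega
          rw [h7]; simp
      rcases s with ⟨b, i, j⟩
      cases b
      · exact h4 _ _ _ _ (by simpa using hclip i)
      · exact h4 _ _ _ _ (by simpa using hclip j)
    calc _ ≤ ∑ s : Bool × Fin n × Fin n, 2 * ‖q‖ := Finset.sum_le_sum fun s _ =>
          mul_le_mul_of_nonneg_left (h3 s) zero_le_two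
      _ = 4 * (n : ℝ) ^ 2 * ‖q‖ := by
        rw [Finset.sum_const, Finset.card_univ, nsmul_eq_mul]
        simp only [Fintype.card_prod, Fintype.card_bool, Fintype.card_fin]
        push_cast; ring
  -- left side
  have hval : ∀ (k : Fin m × Fin m) (p : Fin n × Fin n),
      ((ev hT (pt p.1 p.2)).comp q) (y k) = (D * L k)⁻¹ * (ck n (k.1, k.2) p.1 p.2 - 1) := by
    intro k p
    rw [ContinuousLinearMap.comp_apply, hy]
    show ev hT (pt p.1 p.2) (q ((D * L k)⁻¹ • x k)) = _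
    rw [map_smul, map_smul, hx1, ev_apply, he, tf_pt, smul_eq_mul]
  have hconv : ∀ (f : ℕ → ℕ → ℝ),
      ∑ p : Fin n × Fin n, f p.1 p.2 = ∑ i ∈ Finset.range n, ∑ j ∈ Finset.range n, f i j := by
    intro f
    rw [Fintype.sum_prod_type, Finset.sum_range]
    refine Finset.sum_congr rfl fun i _ => ?_
    rw [Finset.sum_range]
  have hsum : ∀ k : Fin m × Fin m, ∑ p : Fin n × Fin n, ck n (k.1, k.2) p.1 p.2 *
      ((ev hT (pt p.1 p.2)).comp q) (y k) = (D * L k)⁻¹ * ((n : ℝ) ^ 2 / 2) := by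
    intro k
    have e1 : ∑ p : Fin n × Fin n, ck n (k.1, k.2) p.1 p.2 *
        ((ev hT (pt p.1 p.2)).comp q) (y k) = (D * L k)⁻¹ *
        (∑ p : Fin n × Fin n, ck n (k.1, k.2) p.1 p.2 * ck n (k.1, k.2) p.1 p.2 -
          ∑ p : Fin n × Fin n, ck n (k.1, k.2) p.1 p.2) := by
      rw [← Finset.sum_sub_distrib, Finset.mul_sum]
      refine Finset.sum_congr rfl fun p _ => ?_
      rw [hval]; ring
    rw [e1, hconv (fun i j => ck n (k.1, k.2) i j * ck n (k.1, k.2) i j),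
      hconv (fun i j => ck n (k.1, k.2) i j),
      ck_orth n m (by omega) (k.1, k.2) (k.1, k.2) k.1.2 k.2.2 k.1.2 k.2.2,
      ck_sum n m (by omega) (k.1, k.2) k.1.2 k.2.2, if_pos rfl, sub_zero]
  have h5 : ∑ k : Fin m × Fin m, ((D * L k)⁻¹ * ((n : ℝ) ^ 2 / 2)) ^ 2 ≤
      ((n : ℝ) / 2 * (4 * (n : ℝ) ^ 2 * ‖q‖)) ^ 2 := by
    calc _ = ∑ k : Fin m × Fin m, (∑ p : Fin n × Fin n, ck n (k.1, k.2) p.1 p.2 *
          ((ev hT (pt p.1 p.2)).comp q) (y k)) ^ 2 :=
          Finset.sum_congr rfl fun k _ => by rw [hsum k]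
      _ ≤ _ := h1
      _ ≤ _ := by
          apply pow_le_pow_left₀
          · exact mul_nonneg (by positivity) (Finset.sum_nonneg fun s _ => mul_nonneg zero_le_two (ContinuousLinearMap.opNorm_nonneg _))
          · exact mul_le_mul_of_nonneg_left h2 (by positivity)
  have h6 : ∀ k : Fin m × Fin m, ((D * L k)⁻¹ * ((n : ℝ) ^ 2 / 2)) ^ 2 =
      (n : ℝ) ^ 6 / (16 * Real.pi ^ 2 * D ^ 2) * (1 / ((k.1 : ℝ) + k.2 + 2) ^ 2) := by
    intro k
    rw [hL]
    have hpi := Real.pi_pos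
    have h7 : (0 : ℝ) < (k.1 : ℝ) + k.2 + 2 := by positivity
    field_simp
    ring
  simp only [h6, ← Finset.mul_sum] at h5
  have hpi := Real.pi_pos
  have h8 : ∑ k : Fin m × Fin m, 1 / ((k.1 : ℝ) + k.2 + 2) ^ 2 ≤
      64 * Real.pi ^ 2 * D ^ 2 * ‖q‖ ^ 2 := by
    have h9 : (0 : ℝ) < (n : ℝ) ^ 6 := by positivity
    have h10 : (n : ℝ) ^ 6 / (16 * Real.pi ^ 2 * D ^ 2) *
        ∑ k : Fin m × Fin m, 1 / ((k.1 : ℝ) + k.2 + 2) ^ 2 ≤ 4 * (n : ℝ) ^ 6 * ‖q‖ ^ 2 := by
      refine h5.trans (le_of_eq ?_); ring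
    rw [div_mul_eq_mul_div, div_le_iff₀ (by positivity)] at h10
    have h11 : (n : ℝ) ^ 6 * ∑ k : Fin m × Fin m, 1 / ((k.1 : ℝ) + k.2 + 2) ^ 2 ≤
        (n : ℝ) ^ 6 * (64 * Real.pi ^ 2 * D ^ 2 * ‖q‖ ^ 2) := by
      refine h10.trans (le_of_eq ?_); ring
    exact le_of_mul_le_mul_left h11 h9
  linarith

/-- The theorem for arbitrary C*-algebras. -/
theorem not_surjective_cstar {A : Type u} [NonUnitalCStarAlgebra A] {E : Type}
    [NormedAddCommGroup E] [NormedSpace ℝ E] {T : E →ₗ[ℝ] (Plane → ℝ)} (hT : IsLipModel E T)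
    (q : A →L[ℝ] E) : ¬ Function.Surjective q := by
  intro hq
  let s : Unitization ℂ A →L[ℝ] A :=
    { toFun := fun x => x.snd
      map_add' := fun x y => rfl
      map_smul' := fun r x => rfl
      cont := Unitization.continuous_snd }
  have hs : Function.Surjective s := fun a => ⟨(a : Unitization ℂ A), rfl⟩
  exact not_surjective_unital hT (q.comp s) (hq.comp hs)

end Pool.Agent.NCL
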